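import Pool.Agent.N561.A.Stm

/-!
# Project VS, job E1: a strict maximum on a horizontal line through a critical point is stable
-/

set_option autoImplicit false

namespace Pool.Agent.N424.VS

open Filter Finset Topology Metric
open Pool.Agent.N561

/-- uniform convergence on an open set and convergence of the points -/
theorem tendsto_comp {ι κ : Type} {l : Filter ι} {m : Filter κ} {Q : ι → ℂ → ℂ} {Q₀ : ℂ → ℂ}
    {U : Set ℂ} (hU : IsOpen U) (hQ₀ : ContinuousOn Q₀ U) (h : TendstoUniformlyOn Q Q₀ l U)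
    {a : κ → ι} (ha : Tendsto a m l) {w : κ → ℂ} {z : ℂ} (hz : z ∈ U) (hw : Tendsto w m (𝓝 z)) :
    Tendsto (fun k => Q (a k) (w k)) m (𝓝 (Q₀ z)) := by
  have h1 : Tendsto (fun k => Q₀ (w k)) m (𝓝 (Q₀ z)) :=
    ((hQ₀.continuousAt (hU.mem_nhds hz)).tendsto).comp hw
  have h2 : ∀ᶠ k in m, w k ∈ U := hw.eventually (hU.mem_nhds hz)
  rw [Metric.tendsto_nhds] at h1 ⊢
  intro ε hε
  have h3 := ha.eventually ((Metric.tendstoUniformlyOn_iff.1 h) (ε / 2) (half_pos hε))
  filter_upwards [h1 (ε / 2) (half_pos hε), h2, h3] with k hk1 hk2 hk3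
  have h4 := hk3 (w k) hk2
  calc dist (Q (a k) (w k)) (Q₀ z) ≤ dist (Q (a k) (w k)) (Q₀ (w k)) + dist (Q₀ (w k)) (Q₀ z) :=
        dist_triangle _ _ _
    _ < ε / 2 + ε / 2 := by
        rw [dist_comm] at h4
        linarith
    _ = ε := by ring

/-- the real part along a horizontal line -/
theorem hasDerivAt_line {f : ℂ → ℂ} {f' : ℂ} {x y : ℝ}
    (h : HasDerivAt f f' (x + y * Complex.I)) :
    HasDerivAt (fun t : ℝ => (f (t + y * Complex.I)).re) f'.re x := by
  have h1 : HasDerivAt (fun t : ℝ => (t : ℂ) + y * Complex.I) 1 x :=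
    (Complex.ofRealCLM.hasDerivAt (x := x)).add_const _
  have h2 := HasDerivAt.comp x h h1
  have h3 := Complex.reCLM.hasFDerivAt.comp_hasDerivAt x h2
  simpa [Function.comp_def] using h3

theorem pert : S_PERT := by
  intro ι l Q Q₀ U zs z₀ x₁ x₂ hU hQ hQ₀ hlim hzs hcrit hseg hx₁ hx₂ hneg hmax
  have hz₀e : ((z₀.re : ℂ) + z₀.im * Complex.I) = z₀ := Complex.re_add_im z₀
  have hz₀U : z₀ ∈ U := by
    have := hseg z₀.re hx₁.le hx₂.le
    rwa [hz₀e] at this
  have hcont : ContinuousOn Q₀ U := hQ₀.continuousOn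
  have hd1 : TendstoLocallyUniformlyOn (deriv ∘ Q) (deriv Q₀) l U :=
    hlim.tendstoLocallyUniformlyOn.deriv hQ hU
  have hQ1 : ∀ᶠ p in l, DifferentiableOn ℂ ((deriv ∘ Q) p) U := by
    filter_upwards [hQ] with p hp using hp.deriv hU
  have hd2 : TendstoLocallyUniformlyOn (deriv ∘ (deriv ∘ Q)) (deriv (deriv Q₀)) l U :=
    hd1.deriv hQ1 hU
  -- a disc where the second derivative has negative real part
  have hc2 : ContinuousAt (deriv (deriv Q₀)) z₀ :=
    (((hQ₀.deriv hU).deriv hU).continuousOn).continuousAt (hU.mem_nhds hz₀U)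
  set c : ℝ := -(deriv (deriv Q₀) z₀).re / 3 with hc
  have hcpos : 0 < c := by rw [hc]; linarith
  obtain ⟨t, ht, hev⟩ := (Metric.tendstoLocallyUniformlyOn_iff.1 hd2) c hcpos z₀ hz₀U
  rw [hU.nhdsWithin_eq hz₀U] at ht
  have hball : ∀ᶠ w in 𝓝 z₀, w ∈ t ∧ w ∈ U ∧ (deriv (deriv Q₀) w).re < -(2 * c) := by
    have h1 : ∀ᶠ w in 𝓝 z₀, (deriv (deriv Q₀) w).re < -(2 * c) := by
      have h2 : Tendsto (fun w => (deriv (deriv Q₀) w).re) (𝓝 z₀)
          (𝓝 (deriv (deriv Q₀) z₀).re) :=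
        (Complex.continuous_re.tendsto _).comp hc2.tendsto
      refine h2.eventually_lt_const ?_
      rw [hc]; linarith
    filter_upwards [ht, hU.mem_nhds hz₀U, h1] with w h1 h2 h3 using ⟨h1, h2, h3⟩
  obtain ⟨R, hR, hRball⟩ := Metric.eventually_nhds_iff_ball.1 hball
  set r : ℝ := R / 2 with hr
  have hrpos : 0 < r := by rw [hr]; linarith
  -- the near part
  have hnear : ∀ᶠ p in l, ∀ w ∈ ball z₀ (2 * r), w ∈ U ∧ (deriv (deriv (Q p)) w).re < 0 := by
    filter_upwards [hev] with p hp w hw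
    have hw' : w ∈ ball z₀ R := by
      have : 2 * r = R := by rw [hr]; ring
      rwa [this] at hw
    obtain ⟨h1, h2, h3⟩ := hRball w hw'
    have h4 := hp w h1
    refine ⟨h2, ?_⟩
    have h5 : |(deriv (deriv Q₀) w - deriv (deriv (Q p)) w).re| < c := by
      refine lt_of_le_of_lt (Complex.abs_re_le_norm _) ?_
      rw [dist_eq_norm] at h4
      exact h4
    rw [Complex.sub_re] at h5
    have h6 := (abs_lt.1 h5).1
    linarith [(abs_lt.1 h5).1]
  -- the far part
  have hK : IsCompact {x : ℝ | x ∈ Set.Icc x₁ x₂ ∧ r / 2 ≤ |x - z₀.re|} := by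
    change IsCompact (Set.Icc x₁ x₂ ∩ {x : ℝ | r / 2 ≤ |x - z₀.re|})
    refine IsCompact.inter_right isCompact_Icc ?_
    exact isClosed_le continuous_const (continuous_id.sub continuous_const).abs
  have hfar : ∀ᶠ p in l, ∀ x : ℝ, x₁ ≤ x → x ≤ x₂ → r / 2 ≤ |x - z₀.re| →
      (Q p (x + (zs p).im * Complex.I)).re < (Q p (zs p)).re := by
    have h1 : {q : ι × ℝ | (Q q.1 (q.2 + (zs q.1).im * Complex.I)).re < (Q q.1 (zs q.1)).re} ∈
        l ×ˢ 𝓝ˢ {x : ℝ | x ∈ Set.Icc x₁ x₂ ∧ r / 2 ≤ |x - z₀.re|} := by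
      refine hK.mem_prod_nhdsSet_of_forall ?_
      rintro x ⟨⟨hx1, hx2⟩, hx3⟩
      have hxne : x ≠ z₀.re := by
        rintro rfl
        simp at hx3
        linarith
      have h2 : Tendsto (fun q : ι × ℝ => Q q.1 (q.2 + (zs q.1).im * Complex.I)) (l ×ˢ 𝓝 x)
          (𝓝 (Q₀ (x + z₀.im * Complex.I))) := by
        refine tendsto_comp hU hcont hlim tendsto_fst (hseg x hx1 hx2) ?_
        have h3 : Tendsto (fun q : ι × ℝ => ((q.2 : ℝ) : ℂ)) (l ×ˢ 𝓝 x) (𝓝 (x : ℂ)) :=
          (Complex.continuous_ofReal.tendsto x).comp tendsto_snd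
        have h4 : Tendsto (fun q : ι × ℝ => (((zs q.1).im : ℝ) : ℂ)) (l ×ˢ 𝓝 x)
            (𝓝 (z₀.im : ℂ)) :=
          ((Complex.continuous_ofReal.tendsto _).comp
            ((Complex.continuous_im.tendsto _).comp hzs)).comp tendsto_fst
        exact h3.add (h4.mul_const _)
      have h5 : Tendsto (fun q : ι × ℝ => Q q.1 (zs q.1)) (l ×ˢ 𝓝 x) (𝓝 (Q₀ z₀)) :=
        tendsto_comp hU hcont hlim tendsto_fst hz₀U (hzs.comp tendsto_fst)
      have h6 : Tendsto (fun q : ι × ℝ => (Q q.1 (q.2 + (zs q.1).im * Complex.I)).re) (l ×ˢ 𝓝 x)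
          (𝓝 (Q₀ (x + z₀.im * Complex.I)).re) := (Complex.continuous_re.tendsto _).comp h2
      have h7 : Tendsto (fun q : ι × ℝ => (Q q.1 (zs q.1)).re) (l ×ˢ 𝓝 x) (𝓝 (Q₀ z₀).re) :=
        (Complex.continuous_re.tendsto _).comp h5
      exact h6.eventually_lt h7 (hmax x hx1 hx2 hxne)
    rw [Filter.mem_prod_iff] at h1
    obtain ⟨s, hs, t', ht', hst⟩ := h1
    filter_upwards [hs] with p hp x hx1 hx2 hx3
    have h8 : x ∈ t' := subset_of_mem_nhdsSet ht' ⟨⟨hx1, hx2⟩, hx3⟩
    exact hst (Set.mk_mem_prod hp h8)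
  have hclose : ∀ᶠ p in l, dist (zs p) z₀ < r / 2 :=
    (Metric.tendsto_nhds.1 hzs) (r / 2) (half_pos hrpos)
  filter_upwards [hQ, hcrit, hnear, hfar, hclose] with p hpQ hpc hpn hpf hpd
  have hzsball : zs p ∈ ball z₀ (2 * r) := by
    rw [mem_ball]; linarith
  refine ⟨(hpn _ hzsball).2, ?_⟩
  intro x hx1 hx2 hxne
  set xs : ℝ := (zs p).re with hxs
  set ys : ℝ := (zs p).im with hys
  have hzse : ((xs : ℂ) + ys * Complex.I) = zs p := Complex.re_add_im _
  by_cases hfarx : r / 2 ≤ |x - z₀.re|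
  · exact hpf x hx1 hx2 hfarx
  · rw [not_le] at hfarx
    -- every point of the segment between `xs` and `x` is in the disc
    have hre : |xs - z₀.re| < r / 2 := by
      have h1 := Complex.abs_re_le_norm (zs p - z₀)
      rw [Complex.sub_re, ← dist_eq_norm] at h1
      exact lt_of_le_of_lt h1 hpd
    have him : |ys - z₀.im| < r / 2 := by
      have h1 := Complex.abs_im_le_norm (zs p - z₀)
      rw [Complex.sub_im, ← dist_eq_norm] at h1
      exact lt_of_le_of_lt h1 hpd
    have hin : ∀ u : ℝ, |u - z₀.re| < r / 2 → ((u : ℂ) + ys * Complex.I) ∈ ball z₀ (2 * r) := by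
      intro u hu
      rw [mem_ball, dist_eq_norm]
      have h1 := Complex.norm_le_abs_re_add_abs_im ((u : ℂ) + ys * Complex.I - z₀)
      have h2 : ((u : ℂ) + ys * Complex.I - z₀).re = u - z₀.re := by simp
      have h3 : ((u : ℂ) + ys * Complex.I - z₀).im = ys - z₀.im := by simp
      rw [h2, h3] at h1
      linarith
    have hbet : ∀ u : ℝ, u ∈ Set.uIcc xs x → |u - z₀.re| < r / 2 := by
      intro u hu
      rw [Set.mem_uIcc] at hu
      rw [abs_lt] at hfarx hre ⊢
      rcases hu with ⟨h1, h2⟩ | ⟨h1, h2⟩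
      · exact ⟨by linarith [hre.1], by linarith [hfarx.2]⟩
      · exact ⟨by linarith [hfarx.1], by linarith [hre.2]⟩
    have hder1 : ∀ u : ℝ, u ∈ Set.uIcc xs x →
        HasDerivAt (fun t : ℝ => (Q p (t + ys * Complex.I)).re)
          (deriv (Q p) (u + ys * Complex.I)).re u := by
      intro u hu
      have hm := (hpn _ (hin u (hbet u hu))).1
      exact hasDerivAt_line ((hpQ.differentiableAt (hU.mem_nhds hm)).hasDerivAt)
    have hder2 : ∀ u : ℝ, u ∈ Set.uIcc xs x →
        HasDerivAt (fun t : ℝ => (deriv (Q p) (t + ys * Complex.I)).re)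
          (deriv (deriv (Q p)) (u + ys * Complex.I)).re u := by
      intro u hu
      have hm := (hpn _ (hin u (hbet u hu))).1
      exact hasDerivAt_line (((hpQ.deriv hU).differentiableAt (hU.mem_nhds hm)).hasDerivAt)
    have hzero : (deriv (Q p) (xs + ys * Complex.I)).re = 0 := by
      rw [hzse, hpc]; simp
    rcases lt_or_gt_of_ne hxne with hlt | hgt
    · -- `x < xs`
      have hsub : ∀ u, u ∈ Set.Icc x xs → u ∈ Set.uIcc xs x := by
        intro u hu
        rw [Set.uIcc_of_ge hlt.le]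
        exact hu
      obtain ⟨ξ, hξ, hξe⟩ := exists_hasDerivAt_eq_slope
        (fun t : ℝ => (Q p (t + ys * Complex.I)).re)
        (fun u => (deriv (Q p) (u + ys * Complex.I)).re) hlt
        (fun u hu => (hder1 u (hsub u hu)).continuousAt.continuousWithinAt)
        (fun u hu => hder1 u (hsub u ⟨hu.1.le, hu.2.le⟩))
      obtain ⟨η, hη, hηe⟩ := exists_hasDerivAt_eq_slope
        (fun t : ℝ => (deriv (Q p) (t + ys * Complex.I)).re)
        (fun u => (deriv (deriv (Q p)) (u + ys * Complex.I)).re) hξ.2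
        (fun u hu => (hder2 u (hsub u ⟨hξ.1.le.trans hu.1, hu.2⟩)).continuousAt.continuousWithinAt)
        (fun u hu => hder2 u (hsub u ⟨hξ.1.le.trans hu.1.le, hu.2.le⟩))
      have hηneg : (deriv (deriv (Q p)) (η + ys * Complex.I)).re < 0 :=
        (hpn _ (hin η (hbet η (hsub η ⟨hξ.1.le.trans hη.1.le, hη.2.le⟩)))).2
      have h1 : 0 < (deriv (Q p) (ξ + ys * Complex.I)).re := by
        rw [hzero] at hηe
        have h2 : 0 < xs - ξ := by linarith [hξ.2]
        rw [eq_div_iff h2.ne'] at hηe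
        nlinarith
      rw [eq_div_iff (by linarith : xs - x ≠ 0), hzse] at hξe
      have h2 : 0 < xs - x := by linarith
      nlinarith
    · have hsub : ∀ u, u ∈ Set.Icc xs x → u ∈ Set.uIcc xs x := by
        intro u hu
        rw [Set.uIcc_of_le hgt.le]
        exact hu
      obtain ⟨ξ, hξ, hξe⟩ := exists_hasDerivAt_eq_slope
        (fun t : ℝ => (Q p (t + ys * Complex.I)).re)
        (fun u => (deriv (Q p) (u + ys * Complex.I)).re) hgt
        (fun u hu => (hder1 u (hsub u hu)).continuousAt.continuousWithinAt)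
        (fun u hu => hder1 u (hsub u ⟨hu.1.le, hu.2.le⟩))
      obtain ⟨η, hη, hηe⟩ := exists_hasDerivAt_eq_slope
        (fun t : ℝ => (deriv (Q p) (t + ys * Complex.I)).re)
        (fun u => (deriv (deriv (Q p)) (u + ys * Complex.I)).re) hξ.1
        (fun u hu => (hder2 u (hsub u ⟨hu.1, hu.2.trans hξ.2.le⟩)).continuousAt.continuousWithinAt)
        (fun u hu => hder2 u (hsub u ⟨hu.1.le, hu.2.le.trans hξ.2.le⟩))
      have hηneg : (deriv (deriv (Q p)) (η + ys * Complex.I)).re < 0 :=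
        (hpn _ (hin η (hbet η (hsub η ⟨hη.1.le, hη.2.le.trans hξ.2.le⟩)))).2
      have h1 : (deriv (Q p) (ξ + ys * Complex.I)).re < 0 := by
        rw [hzero] at hηe
        have h2 : 0 < ξ - xs := by linarith [hξ.1]
        rw [eq_div_iff h2.ne'] at hηe
        nlinarith
      rw [eq_div_iff (by linarith : x - xs ≠ 0), hzse] at hξe
      have h2 : 0 < x - xs := by linarith
      nlinarith

end Pool.Agent.N424.VS
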