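import Pool.Agent.N424.VS.Pert
import Pool.Agent.TH554.VHC.A

/-!
# Project VS, job E2: stability of a critical point with a strict maximum on a horizontal line
-/

set_option autoImplicit false

namespace Pool.Agent.N424.VS

open Filter Finset Topology Metric
open Pool.Agent.N561
open Pool.Agent.TH554.VHC

/-- lower bound of the differences of the derivative -/
theorem conc_seg {G : ℂ → ℂ} {V : Set ℂ} (hV : Convex ℝ V) (hVo : IsOpen V)
    (hG : DifferentiableOn ℂ G V) {c : ℝ} (h2 : ∀ w ∈ V, (deriv (deriv G) w).re ≤ -c) {z z₀ : ℂ}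
    (hz : z ∈ V) (hz₀ : z₀ ∈ V) : c * ‖z - z₀‖ ≤ ‖deriv G z - deriv G z₀‖ := by
  obtain ⟨v, hv⟩ : ∃ v : ℂ, v = z - z₀ := ⟨_, rfl⟩
  have hzv : z = z₀ + v := by rw [hv]; ring
  rw [← hv]
  have hseg : ∀ t : ℝ, t ∈ Set.Icc (0 : ℝ) 1 → z₀ + (t : ℂ) * v ∈ V := by
    intro t ht
    have h1 := hV hz₀ hz (by linarith [ht.2] : (0 : ℝ) ≤ 1 - t) ht.1 (by ring)
    have e : (1 - t) • z₀ + t • z = z₀ + (t : ℂ) * v := by
      rw [hv, Complex.real_smul, Complex.real_smul]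
      push_cast
      ring
    rwa [e] at h1
  have hd : ∀ t : ℝ, t ∈ Set.Icc (0 : ℝ) 1 → HasDerivAt
      (fun t : ℝ => (deriv G (z₀ + t * v) * (starRingEnd ℂ) v).re)
      (deriv (deriv G) (z₀ + t * v) * v * (starRingEnd ℂ) v).re t := by
    intro t ht
    have h1 : HasDerivAt (deriv G) (deriv (deriv G) (z₀ + t * v)) (z₀ + t * v) :=
      ((hG.deriv hVo).differentiableAt (hVo.mem_nhds (hseg t ht))).hasDerivAt
    have h3 : HasDerivAt (fun t : ℝ => z₀ + (t : ℂ) * v) v t := by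
      have := ((Complex.ofRealCLM.hasDerivAt (x := t)).mul_const v).const_add z₀
      simpa using this
    have h4 := HasDerivAt.comp t h1 h3
    have h5 := h4.mul_const ((starRingEnd ℂ) v)
    have h6 := Complex.reCLM.hasFDerivAt.comp_hasDerivAt t h5
    simpa [Function.comp_def] using h6
  have hb : ∀ t : ℝ, t ∈ Set.Icc (0 : ℝ) 1 →
      (deriv (deriv G) (z₀ + t * v) * v * (starRingEnd ℂ) v).re ≤ - c * ‖v‖ ^ 2 := by
    intro t ht
    have e1 : deriv (deriv G) (z₀ + t * v) * v * (starRingEnd ℂ) v =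
        deriv (deriv G) (z₀ + t * v) * ((‖v‖ ^ 2 : ℝ) : ℂ) := by
      rw [mul_assoc, Complex.mul_conj, Complex.normSq_eq_norm_sq]
    rw [e1, Complex.re_mul_ofReal]
    exact mul_le_mul_of_nonneg_right (h2 _ (hseg t ht)) (by positivity)
  have h1 := (convex_Icc (0 : ℝ) 1).image_sub_le_mul_sub_of_deriv_le
    (f := fun t : ℝ => (deriv G (z₀ + t * v) * (starRingEnd ℂ) v).re) (C := - c * ‖v‖ ^ 2)
    (fun t ht => (hd t ht).continuousAt.continuousWithinAt)
    (fun t ht => (hd t (interior_subset ht)).differentiableAt.differentiableWithinAt)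
    (fun t ht => by
      rw [(hd t (interior_subset ht)).deriv]
      exact hb t (interior_subset ht)) 0 (by simp) 1 (by simp) (by norm_num)
  simp only [Complex.ofReal_one, one_mul, Complex.ofReal_zero, zero_mul, sub_zero, mul_one,
    add_zero] at h1
  rw [← hzv, ← Complex.sub_re, ← sub_mul] at h1
  have h3 : -(‖deriv G z - deriv G z₀‖ * ‖v‖) ≤
      ((deriv G z - deriv G z₀) * (starRingEnd ℂ) v).re := by
    have h4 := Complex.abs_re_le_norm ((deriv G z - deriv G z₀) * (starRingEnd ℂ) v)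
    rw [norm_mul, RCLike.norm_conj] at h4
    exact (abs_le.1 h4).1
  by_cases hv0 : ‖v‖ = 0
  · rw [hv0, mul_zero]
    exact norm_nonneg _
  · have hvp : 0 < ‖v‖ := lt_of_le_of_ne (norm_nonneg _) (Ne.symm hv0)
    have h5 : c * ‖v‖ * ‖v‖ ≤ ‖deriv G z - deriv G z₀‖ * ‖v‖ := by nlinarith
    exact le_of_mul_le_mul_right h5 hvp

/-- the second derivative of a sum -/
theorem dd_add {V : Set ℂ} (hV : IsOpen V) {A B : ℂ → ℂ} (hA : DifferentiableOn ℂ A V)
    (hB : DifferentiableOn ℂ B V) {z : ℂ} (hz : z ∈ V) :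
    deriv (deriv fun w => A w + B w) z = deriv (deriv A) z + deriv (deriv B) z := by
  have h1 : deriv (fun w => A w + B w) =ᶠ[𝓝 z] fun w => deriv A w + deriv B w := by
    filter_upwards [hV.mem_nhds hz] with w hw
    exact deriv_fun_add (hA.differentiableAt (hV.mem_nhds hw))
      (hB.differentiableAt (hV.mem_nhds hw))
  rw [h1.deriv_eq]
  exact deriv_fun_add ((hA.deriv hV).differentiableAt (hV.mem_nhds hz))
    ((hB.deriv hV).differentiableAt (hV.mem_nhds hz))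

/-- The data of the stability: `H₀` has the critical point `z₀`. -/
structure CD (U : Set ℂ) (H₀ : ℂ → ℂ) (z₀ : ℂ) (x₂ : ℝ) : Prop where
  hU : IsOpen U
  hd : DifferentiableOn ℂ H₀ U
  hx : |z₀.re| < x₂
  seg : ∀ x : ℝ, |x| ≤ x₂ → (x + z₀.im * Complex.I : ℂ) ∈ U
  crit : deriv H₀ z₀ = 0
  neg : (deriv (deriv H₀) z₀).re < 0
  line : ∀ x : ℝ, |x| ≤ x₂ → x ≠ z₀.re → (H₀ (x + z₀.im * Complex.I)).re < (H₀ z₀).re

theorem CD.mem {U : Set ℂ} {H₀ : ℂ → ℂ} {z₀ : ℂ} {x₂ : ℝ} (h : CD U H₀ z₀ x₂) : z₀ ∈ U := by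
  have := h.seg z₀.re h.hx.le
  rwa [Complex.re_add_im] at this

/-- the filter of the functions near `H₀` with a critical point near `z₀` -/
theorem line_stab {U : Set ℂ} {H₀ : ℂ → ℂ} {z₀ : ℂ} {x₂ : ℝ} (h : CD U H₀ z₀ x₂) :
    ∃ ε : ℝ, 0 < ε ∧ ∀ (Q : ℂ → ℂ) (z : ℂ), DifferentiableOn ℂ Q U →
      (∀ w ∈ U, ‖Q w - H₀ w‖ ≤ ε) → ‖z - z₀‖ ≤ ε → deriv Q z = 0 →
      ∀ x : ℝ, |x| ≤ x₂ → (x + z.im * Complex.I : ℂ) ∈ U ∧
        (x ≠ z.re → (Q (x + z.im * Complex.I)).re < (Q z).re) := by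
  by_contra hcon
  push Not at hcon
  have hpos : ∀ n : ℕ, (0 : ℝ) < 1 / ((n : ℝ) + 1) := fun n => by positivity
  choose Q z hQ hQH hz hz' x hx hbad using fun n : ℕ => hcon (1 / ((n : ℝ) + 1)) (hpos n)
  have hlim0 : Tendsto (fun n : ℕ => 1 / ((n : ℝ) + 1)) atTop (𝓝 0) :=
    tendsto_one_div_add_atTop_nhds_zero_nat
  have hzlim : Tendsto z atTop (𝓝 z₀) := by
    rw [tendsto_iff_norm_sub_tendsto_zero]
    exact squeeze_zero (fun n => norm_nonneg _) hz hlim0
  have hunif : TendstoUniformlyOn Q H₀ atTop U := by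
    rw [Metric.tendstoUniformlyOn_iff]
    intro ε hε
    filter_upwards [hlim0.eventually_lt_const hε] with n hn w hw
    rw [dist_comm, dist_eq_norm]
    exact (hQH n w hw).trans_lt hn
  have habs := abs_lt.1 h.hx
  have h1 := pert ℕ atTop Q H₀ U z z₀ (-x₂) x₂ h.hU (Eventually.of_forall hQ) h.hd hunif hzlim
    (Eventually.of_forall hz') (fun x h1 h2 => h.seg x (abs_le.2 ⟨h1, h2⟩)) habs.1 habs.2 h.neg
    (fun x h1 h2 h3 => h.line x (abs_le.2 ⟨h1, h2⟩) h3)
  -- the segments are in `U`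
  have h2 : ∀ᶠ n : ℕ in atTop, ∀ x ∈ Set.Icc (-x₂) x₂, ((x : ℝ) + (z n).im * Complex.I : ℂ) ∈ U := by
    have h3 : {q : ℕ × ℝ | ((q.2 : ℝ) + (z q.1).im * Complex.I : ℂ) ∈ U} ∈
        (atTop : Filter ℕ) ×ˢ 𝓝ˢ (Set.Icc (-x₂) x₂) := by
      refine isCompact_Icc.mem_prod_nhdsSet_of_forall ?_
      intro y hy
      have h4 : Tendsto (fun q : ℕ × ℝ => ((q.2 : ℝ) + (z q.1).im * Complex.I : ℂ))
          ((atTop : Filter ℕ) ×ˢ 𝓝 y) (𝓝 (y + z₀.im * Complex.I)) := by
        have h5 : Tendsto (fun q : ℕ × ℝ => ((q.2 : ℝ) : ℂ)) ((atTop : Filter ℕ) ×ˢ 𝓝 y)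
            (𝓝 (y : ℂ)) := (Complex.continuous_ofReal.tendsto y).comp tendsto_snd
        have h6 : Tendsto (fun q : ℕ × ℝ => (((z q.1).im : ℝ) : ℂ)) ((atTop : Filter ℕ) ×ˢ 𝓝 y)
            (𝓝 (z₀.im : ℂ)) :=
          ((Complex.continuous_ofReal.tendsto _).comp
            ((Complex.continuous_im.tendsto _).comp hzlim)).comp tendsto_fst
        exact h5.add (h6.mul_const _)
      exact h4.eventually (h.hU.mem_nhds (h.seg y (abs_le.2 hy)))
    rw [Filter.mem_prod_iff] at h3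
    obtain ⟨s, hs, t', ht', hst⟩ := h3
    filter_upwards [hs] with n hn y hy
    exact hst (Set.mk_mem_prod hn (subset_of_mem_nhdsSet ht' hy))
  obtain ⟨n, hn1, hn2⟩ := (h1.and h2).exists
  have hxn := abs_le.1 (hx n)
  have hmem := hn2 (x n) hxn
  obtain ⟨hne, hle⟩ := hbad n hmem
  have := hn1.2 (x n) hxn.1 hxn.2 hne
  linarith

/-- the near part: bounds of the second derivative, existence and uniqueness of the critical
point -/
theorem near_stab {U : Set ℂ} {H₀ : ℂ → ℂ} {z₀ : ℂ} {x₂ : ℝ} (h : CD U H₀ z₀ x₂) :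
    ∃ c ρ : ℝ, 0 < c ∧ 0 < ρ ∧ closedBall z₀ (2 * ρ) ⊆ U ∧
      (∀ δ : ℝ, 0 < δ → δ ≤ ρ → ∀ (f : ℂ) (H : ℂ → ℂ), DifferentiableOn ℂ H U →
        (∀ w ∈ U, ‖H w - f - H₀ w‖ ≤ c * ρ * δ / 8) →
        (∀ w ∈ ball z₀ ρ, (deriv (deriv H) w).re ≤ -c) ∧
        ∃ z, ‖z - z₀‖ ≤ δ / 2 ∧ deriv H z = 0) := by
  have hz₀ := h.mem
  have hc2 : ContinuousAt (deriv (deriv H₀)) z₀ :=
    (((h.hd.deriv h.hU).deriv h.hU).continuousOn).continuousAt (h.hU.mem_nhds hz₀)
  obtain ⟨c, hc⟩ : ∃ c : ℝ, c = -(deriv (deriv H₀) z₀).re / 3 := ⟨_, rfl⟩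
  have hcpos : 0 < c := by rw [hc]; linarith [h.neg]
  have hball : ∀ᶠ w in 𝓝 z₀, w ∈ U ∧ (deriv (deriv H₀) w).re < -(2 * c) := by
    have h1 : ∀ᶠ w in 𝓝 z₀, (deriv (deriv H₀) w).re < -(2 * c) := by
      have h2 : Tendsto (fun w => (deriv (deriv H₀) w).re) (𝓝 z₀)
          (𝓝 (deriv (deriv H₀) z₀).re) := (Complex.continuous_re.tendsto _).comp hc2.tendsto
      refine h2.eventually_lt_const ?_
      rw [hc]; linarith
    filter_upwards [h.hU.mem_nhds hz₀, h1] with w h1 h2 using ⟨h1, h2⟩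
  obtain ⟨R, hR, hRball⟩ := Metric.eventually_nhds_iff_ball.1 hball
  refine ⟨c, R / 3, hcpos, by positivity, ?_, ?_⟩
  · intro w hw
    refine (hRball w ?_).1
    rw [mem_closedBall] at hw
    rw [mem_ball]
    linarith
  · obtain ⟨ρ, hρ⟩ : ∃ ρ : ℝ, ρ = R / 3 := ⟨_, rfl⟩
    rw [← hρ]
    have hρ0 : 0 < ρ := by rw [hρ]; positivity
    intro δ hδ hδρ f H hH hcl
    have hE : DifferentiableOn ℂ (fun w => H w - f - H₀ w) U :=
      (hH.sub (differentiableOn_const f)).sub h.hd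
    have hcb : ∀ w ∈ ball z₀ ρ, closedBall w ρ ⊆ U := by
      intro w hw v hv
      refine (hRball v ?_).1
      rw [mem_closedBall] at hv
      rw [mem_ball] at hw ⊢
      calc dist v z₀ ≤ dist v w + dist w z₀ := dist_triangle _ _ _
        _ < ρ + ρ := by linarith
        _ < R := by rw [hρ]; linarith
    have hEb : ∀ w ∈ ball z₀ ρ, ‖deriv (fun w => H w - f - H₀ w) w‖ ≤ c * ρ * δ / 8 / ρ ∧
        ‖deriv (deriv fun w => H w - f - H₀ w) w‖ ≤ 2 * (c * ρ * δ / 8) / ρ ^ 2 := by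
      intro w hw
      exact cauchy_ball hE hρ0 (hcb w hw) hcl
    have hballU : ball z₀ ρ ⊆ U := fun w hw => hcb w hw (mem_closedBall_self hρ0.le)
    have hsplit : H = fun w => (H w - f - H₀ w) + (H₀ w + f) := by
      funext w; ring
    have hd1 : ∀ w ∈ U, deriv H w = deriv (fun w => H w - f - H₀ w) w + deriv H₀ w := by
      intro w hw
      have h3 := h.hd.differentiableAt (h.hU.mem_nhds hw)
      have h4 := hE.differentiableAt (h.hU.mem_nhds hw)
      have h5 : HasDerivAt H (deriv (fun w => H w - f - H₀ w) w + deriv H₀ w) w := by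
        have := h4.hasDerivAt.add (h3.hasDerivAt.add_const f)
        refine this.congr_of_eventuallyEq (Eventually.of_forall fun v => ?_)
        simp only [Pi.add_apply]
        ring
      exact h5.deriv
    have hdd : ∀ w ∈ U, deriv (deriv H) w =
        deriv (deriv fun w => H w - f - H₀ w) w + deriv (deriv H₀) w := by
      intro w hw
      have h3 : deriv H =ᶠ[𝓝 w] fun v => deriv (fun w => H w - f - H₀ w) v + deriv H₀ v := by
        filter_upwards [h.hU.mem_nhds hw] with v hv using hd1 v hv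
      rw [h3.deriv_eq]
      exact deriv_fun_add ((hE.deriv h.hU).differentiableAt (h.hU.mem_nhds hw))
        ((h.hd.deriv h.hU).differentiableAt (h.hU.mem_nhds hw))
    have hneg : ∀ w ∈ ball z₀ ρ, (deriv (deriv H) w).re ≤ -c := by
      intro w hw
      rw [hdd w (hballU hw), Complex.add_re]
      have h3 := (Complex.re_le_norm _).trans (hEb w hw).2
      have h4 : (deriv (deriv H₀) w).re < -(2 * c) := by
        refine (hRball w ?_).2
        rw [mem_ball] at hw ⊢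
        rw [hρ] at hw
        linarith
      have h5 : 2 * (c * ρ * δ / 8) / ρ ^ 2 ≤ c := by
        rw [div_le_iff₀ (by positivity)]
        nlinarith [mul_pos hcpos hρ0, mul_le_mul_of_nonneg_left hδρ (mul_pos hcpos hρ0).le]
      linarith
    refine ⟨hneg, ?_⟩
    -- existence
    have hz₀b : z₀ ∈ ball z₀ ρ := mem_ball_self hρ0
    have hH' : ‖deriv H z₀‖ ≤ c * δ / 8 := by
      rw [hd1 z₀ hz₀, h.crit, add_zero]
      refine (hEb z₀ hz₀b).1.trans (le_of_eq ?_)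
      field_simp
    have hlow : ∀ w ∈ ball z₀ ρ, c * ‖w - z₀‖ ≤ ‖deriv H w - deriv H z₀‖ := fun w hw =>
      conc_seg (convex_ball z₀ ρ) isOpen_ball (hH.mono hballU) hneg hw hz₀b
    have hsub : closedBall z₀ (δ / 2) ⊆ ball z₀ ρ := closedBall_subset_ball (by linarith)
    have hdc : DiffContOnCl ℂ (deriv H) (ball z₀ (δ / 2)) := by
      refine DifferentiableOn.diffContOnCl_ball (U := U) (hH.deriv h.hU) (hsub.trans hballU)
    have h6 : ∃ᶠ w in 𝓝 z₀, deriv H w ≠ deriv H z₀ := by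
      have h7 : ∀ᶠ w in 𝓝[≠] z₀, deriv H w ≠ deriv H z₀ := by
        have hA : ∀ᶠ w in 𝓝[≠] z₀, w ∈ ball z₀ ρ :=
          nhdsWithin_le_nhds (isOpen_ball.mem_nhds hz₀b)
        have h8 : ∀ᶠ w in 𝓝[≠] z₀, w ∈ ball z₀ ρ ∧ w ≠ z₀ := hA.and self_mem_nhdsWithin
        filter_upwards [h8] with w hw heq
        have h9 := hlow w hw.1
        rw [heq, sub_self, norm_zero] at h9
        have h10 : 0 < ‖w - z₀‖ := norm_pos_iff.2 (sub_ne_zero.2 hw.2)
        have := mul_pos hcpos h10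
        linarith
      exact (h7.frequently).filter_mono nhdsWithin_le_nhds
    have h11 := hdc.ball_subset_image_closedBall (by positivity : 0 < δ / 2)
      (ε := c * (δ / 2)) (fun w hw => by
        have h12 := hlow w (hsub (sphere_subset_closedBall hw))
        rw [mem_sphere, dist_eq_norm] at hw
        rwa [hw] at h12) h6
    have h13 : (0 : ℂ) ∈ ball (deriv H z₀) (c * (δ / 2) / 2) := by
      rw [mem_ball, dist_comm, dist_zero_right]
      refine lt_of_le_of_lt hH' ?_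
      have := mul_pos hcpos hδ
      linarith
    obtain ⟨z, hz, hz0⟩ := h11 h13
    rw [mem_closedBall, dist_eq_norm] at hz
    exact ⟨z, hz, hz0⟩

end Pool.Agent.N424.VS
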