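import Pool.Agent.N561.A.Stm
import Pool.Agent.N424.VS.Stab
import Pool.Agent.Helper540.Holo

/-!
# Project VS, jobs E2 and E3: the critical point at a small vertex as a function of the variable of
the parent
-/

set_option autoImplicit false

namespace Pool.Agent.N424.VS

open Filter Finset Topology Metric
open Pool.Agent.N561
open Pool.Agent.W711.HT
open Pool.Agent.TH554.VHC

theorem Rc_open (a b : ℝ) : IsOpen (Rc a b) :=
  (isOpen_lt (Complex.continuous_re.abs) continuous_const).inter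
    (isOpen_lt (Complex.continuous_im.abs) continuous_const)

theorem Rc_conv (a b : ℝ) : Convex ℝ (Rc a b) := by
  intro z hz w hw s t hs ht hst
  have key : ∀ x y m : ℝ, |x| < m → |y| < m → |s * x + t * y| < m := by
    intro x y m hx hy
    rw [abs_lt] at hx hy ⊢
    rcases hs.eq_or_lt with h0 | h0
    · rw [← h0, zero_add] at hst
      rw [← h0, hst]
      constructor <;> linarith
    · constructor
      · nlinarith [mul_lt_mul_of_pos_left hx.1 h0, mul_le_mul_of_nonneg_left hy.1.le ht]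
      · nlinarith [mul_lt_mul_of_pos_left hx.2 h0, mul_le_mul_of_nonneg_left hy.2.le ht]
  refine ⟨?_, ?_⟩
  · have e : (s • z + t • w).re = s * z.re + t * w.re := by simp
    rw [e]
    exact key _ _ _ hz.1 hw.1
  · have e : (s • z + t • w).im = s * z.im + t * w.im := by simp
    rw [e]
    exact key _ _ _ hz.2 hw.2

theorem Rc_le {a b a' b' : ℝ} (h : a ≤ a') (h' : b ≤ b') : Rc a b ⊆ Rc a' b' := fun _ hz =>
  ⟨hz.1.trans_le h, hz.2.trans_le h'⟩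

theorem Rc_zero {a b : ℝ} (ha : 0 < a) (hb : 0 < b) : (0 : ℂ) ∈ Rc a b := by
  refine ⟨?_, ?_⟩ <;> simpa

theorem Rc_ball {r : ℝ} {z : ℂ} (hr : 0 < r) (hz : z ∈ Rc (r / 2) (r / 2)) :
    closedBall z (r / 4) ⊆ Rc r r := by
  intro w hw
  rw [mem_closedBall, dist_eq_norm] at hw
  have h1 := (Complex.abs_re_le_norm (w - z)).trans hw
  have h2 := (Complex.abs_im_le_norm (w - z)).trans hw
  rw [Complex.sub_re] at h1
  rw [Complex.sub_im] at h2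
  have h3 : |w.re| ≤ |w.re - z.re| + |z.re| := by
    have := abs_add_le (w.re - z.re) z.re
    rwa [sub_add_cancel] at this
  have h4 : |w.im| ≤ |w.im - z.im| + |z.im| := by
    have := abs_add_le (w.im - z.im) z.im
    rwa [sub_add_cancel] at this
  have h5 := hz.1
  have h6 := hz.2
  exact ⟨by linarith, by linarith⟩

theorem Rc_neg {ρ τ : ℝ} {z : ℂ} (hz : z ∈ Rc ρ τ) : -z ∈ Rc ρ τ := by
  refine ⟨?_, ?_⟩
  · rw [Complex.neg_re, abs_neg]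
    exact hz.1
  · rw [Complex.neg_im, abs_neg]
    exact hz.2

theorem Rc_norm {ρ : ℝ} {z : ℂ} (hz : z ∈ Rc ρ ρ) : ‖z‖ < 2 * ρ := by
  have h1 := Complex.norm_le_abs_re_add_abs_im z
  have h2 := hz.1
  have h3 := hz.2
  linarith

/-- the potential as a function of two variables -/
def SS (s' : ℂ → ℂ → ℂ) (p : ℂ × ℂ) : ℂ := s' p.1 p.2

/-- the derivative in the first variable -/
noncomputable def g1 (s' : ℂ → ℂ → ℂ) (p : ℂ × ℂ) : ℂ := fderiv ℂ (SS s') p (1, 0)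

/-- the derivative in the second variable -/
noncomputable def g2 (s' : ℂ → ℂ → ℂ) (p : ℂ × ℂ) : ℂ := fderiv ℂ (SS s') p (0, 1)

/-- the properties of the potential -/
structure SP (r c' C : ℝ) (U : Set ℂ) (s' : ℂ → ℂ → ℂ) : Prop where
  hr : 0 < r
  hC : 0 < C
  hU : IsOpen U
  san : DifferentiableOn ℂ (fun p : ℂ × ℂ => s' p.1 p.2) (Rc r r ×ˢ U)
  sbd : ∀ ψ ∈ Rc r r, ∀ φ ∈ U, ‖s' ψ φ‖ ≤ C
  ev : ∀ ψ ∈ Rc r r, ∀ φ ∈ U, s' (-ψ) φ = s' ψ φ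
  conc1 : ∀ ψ ∈ Rc r r, ∀ φ ∈ U, (deriv (deriv fun z => s' z φ) ψ).re ≤ -c'

section

variable {r c' C' : ℝ} {U : Set ℂ} {s' : ℂ → ℂ → ℂ} (hS : SP r c' C' U s')

include hS

theorem W_open : IsOpen (Rc r r ×ˢ U) := (Rc_open r r).prod hS.hU

theorem SS_d : DifferentiableOn ℂ (SS s') (Rc r r ×ˢ U) := hS.san

theorem g1_d : DifferentiableOn ℂ (g1 s') (Rc r r ×ˢ U) :=
  Pool.Agent.Helper540.differentiableOn_fderiv_apply (W_open hS) (SS_d hS) _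

theorem g2_d : DifferentiableOn ℂ (g2 s') (Rc r r ×ˢ U) :=
  Pool.Agent.Helper540.differentiableOn_fderiv_apply (W_open hS) (SS_d hS) _

theorem at_W {H : ℂ × ℂ → ℂ} (hH : DifferentiableOn ℂ H (Rc r r ×ˢ U)) {ψ φ : ℂ}
    (hψ : ψ ∈ Rc r r) (hφ : φ ∈ U) : DifferentiableAt ℂ H (ψ, φ) :=
  hH.differentiableAt ((W_open hS).mem_nhds ⟨hψ, hφ⟩)

theorem d1 {ψ φ : ℂ} (hψ : ψ ∈ Rc r r) (hφ : φ ∈ U) :
    HasDerivAt (fun w => s' w φ) (g1 s' (ψ, φ)) ψ := deriv_fst (at_W hS (SS_d hS) hψ hφ)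

theorem d2 {ψ φ : ℂ} (hψ : ψ ∈ Rc r r) (hφ : φ ∈ U) :
    HasDerivAt (fun w => s' ψ w) (g2 s' (ψ, φ)) φ := deriv_snd (at_W hS (SS_d hS) hψ hφ)

theorem dd1 {ψ φ : ℂ} (hψ : ψ ∈ Rc r r) (hφ : φ ∈ U) :
    deriv (deriv fun z => s' z φ) ψ = fderiv ℂ (g1 s') (ψ, φ) (1, 0) := by
  have h1 : deriv (fun z => s' z φ) =ᶠ[𝓝 ψ] fun z => g1 s' (z, φ) := by
    filter_upwards [(Rc_open r r).mem_nhds hψ] with w hw
    exact (d1 hS hw hφ).deriv
  rw [h1.deriv_eq]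
  exact (deriv_fst (at_W hS (g1_d hS) hψ hφ)).deriv

theorem half_sub : Rc (r / 2) (r / 2) ⊆ Rc r r :=
  Rc_le (by linarith [hS.hr]) (by linarith [hS.hr])

/-- bounds of the derivatives in the first variable -/
theorem b1 {ψ φ : ℂ} (hψ : ψ ∈ Rc (r / 2) (r / 2)) (hφ : φ ∈ U) :
    ‖g1 s' (ψ, φ)‖ ≤ C' / (r / 4) ∧ ‖fderiv ℂ (g1 s') (ψ, φ) (1, 0)‖ ≤ 2 * C' / (r / 4) ^ 2 := by
  have hr := hS.hr
  have h1 := cauchy_ball (U := Rc r r) (g := fun w => s' w φ)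
    (fun w hw => (d1 hS hw hφ).differentiableAt.differentiableWithinAt)
    (by linarith : 0 < r / 4) (Rc_ball hr hψ) (fun w hw => hS.sbd w hw φ hφ)
  rw [dd1 hS (half_sub hS hψ) hφ, (d1 hS (half_sub hS hψ) hφ).deriv] at h1
  exact h1

theorem zero_half : (0 : ℂ) ∈ Rc (r / 2) (r / 2) :=
  Rc_zero (by linarith [hS.hr]) (by linarith [hS.hr])

/-- the potential is Lipschitz in the first variable -/
theorem lip1 {ψ φ : ℂ} (hψ : ψ ∈ Rc (r / 2) (r / 2)) (hφ : φ ∈ U) :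
    ‖s' ψ φ - s' 0 φ‖ ≤ C' / (r / 4) * ‖ψ‖ := by
  have h := (Rc_conv (r / 2) (r / 2)).norm_image_sub_le_of_norm_hasDerivWithin_le
    (f := fun w => s' w φ) (f' := fun w => g1 s' (w, φ)) (C := C' / (r / 4))
    (fun w hw => (d1 hS (half_sub hS hw) hφ).hasDerivWithinAt)
    (fun w hw => (b1 hS hw hφ).1) (zero_half hS) hψ
  rwa [sub_zero] at h

theorem g1_zero {φ : ℂ} (hφ : φ ∈ U) : g1 s' (0, φ) = 0 := by
  have h0 : (0 : ℂ) ∈ Rc r r := half_sub hS (zero_half hS)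
  rw [← (d1 hS h0 hφ).deriv]
  refine deriv_even ?_ (d1 hS h0 hφ).differentiableAt
  filter_upwards [(Rc_open r r).mem_nhds h0] with w hw
  exact hS.ev w hw φ hφ

theorem b1' {ψ φ : ℂ} (hψ : ψ ∈ Rc (r / 2) (r / 2)) (hφ : φ ∈ U) :
    ‖g1 s' (ψ, φ)‖ ≤ 2 * C' / (r / 4) ^ 2 * ‖ψ‖ := by
  have h := (Rc_conv (r / 2) (r / 2)).norm_image_sub_le_of_norm_hasDerivWithin_le
    (f := fun w => g1 s' (w, φ)) (f' := fun w => fderiv ℂ (g1 s') (w, φ) (1, 0))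
    (C := 2 * C' / (r / 4) ^ 2)
    (fun w hw => (deriv_fst (at_W hS (g1_d hS) (half_sub hS hw) hφ)).hasDerivWithinAt)
    (fun w hw => (b1 hS hw hφ).2) (zero_half hS) hψ
  rwa [sub_zero, g1_zero hS hφ, sub_zero] at h

theorem b12 {ρ : ℝ} (hρ : 0 < ρ) {ψ φ : ℂ} (hψ : ψ ∈ Rc (r / 2) (r / 2))
    (hφ : closedBall φ ρ ⊆ U) :
    ‖fderiv ℂ (g1 s') (ψ, φ) (0, 1)‖ ≤ 2 * C' / (r / 4) ^ 2 * ‖ψ‖ / ρ := by
  have h1 := cauchy_ball (U := U) (g := fun w => g1 s' (ψ, w))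
    (fun w hw => (deriv_snd (at_W hS (g1_d hS) (half_sub hS hψ)
      hw)).differentiableAt.differentiableWithinAt)
    hρ hφ (fun w hw => b1' hS hψ hw)
  rw [(deriv_snd (at_W hS (g1_d hS) (half_sub hS hψ)
    (hφ (mem_closedBall_self hρ.le)))).deriv] at h1
  exact h1.1

theorem b2 {ρ : ℝ} (hρ : 0 < ρ) {ψ φ : ℂ} (hψ : ψ ∈ Rc r r) (hφ : closedBall φ ρ ⊆ U) :
    ‖g2 s' (ψ, φ)‖ ≤ C' / ρ := by
  have h1 := cauchy_ball (U := U) (g := fun w => s' ψ w)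
    (fun w hw => (d2 hS hψ hw).differentiableAt.differentiableWithinAt)
    hρ hφ (fun w hw => hS.sbd ψ hψ w hw)
  rw [(d2 hS hψ (hφ (mem_closedBall_self hρ.le))).deriv] at h1
  exact h1.1

theorem lip2 {ρ : ℝ} (hρ : 0 < ρ) {ψ ψ' φ : ℂ} (hψ : ψ ∈ Rc (r / 2) (r / 2))
    (hψ' : ψ' ∈ Rc (r / 2) (r / 2)) (hφ : closedBall φ ρ ⊆ U) :
    ‖g2 s' (ψ, φ) - g2 s' (ψ', φ)‖ ≤ C' / ρ / (r / 4) * ‖ψ - ψ'‖ := by
  have h2 : φ ∈ U := hφ (mem_closedBall_self hρ.le)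
  have hd : ∀ w ∈ Rc r r, HasDerivAt (fun w => g2 s' (w, φ))
      (fderiv ℂ (g2 s') (w, φ) (1, 0)) w := fun w hw =>
    deriv_fst (at_W hS (g2_d hS) hw h2)
  refine (Rc_conv (r / 2) (r / 2)).norm_image_sub_le_of_norm_hasDerivWithin_le
    (f := fun w => g2 s' (w, φ)) (f' := fun w => fderiv ℂ (g2 s') (w, φ) (1, 0))
    (C := C' / ρ / (r / 4))
    (fun w hw => (hd w (half_sub hS hw)).hasDerivWithinAt)
    (fun w hw => ?_) hψ' hψ
  have h1 := cauchy_ball (U := Rc r r) (g := fun w => g2 s' (w, φ))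
    (fun w hw => (hd w hw).differentiableAt.differentiableWithinAt)
    (by linarith [hS.hr] : 0 < r / 4) (Rc_ball hS.hr hw)
    (fun w hw => b2 hS hρ hw hφ)
  rw [(hd w (half_sub hS hw)).deriv] at h1
  exact h1.1

variable {g Φ : ℂ → ℂ} (hg : DifferentiableOn ℂ g U) (hΦ : DifferentiableOn ℂ Φ U)

include hg hΦ

theorem q_hd {ψ φ : ℂ} (hψ : ψ ∈ Rc r r) (hφ : φ ∈ U) :
    HasDerivAt (fun w => g w + (Φ w + s' ψ w)) (deriv g φ + (deriv Φ φ + g2 s' (ψ, φ))) φ :=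
  (hg.differentiableAt (hS.hU.mem_nhds hφ)).hasDerivAt.add
    ((hΦ.differentiableAt (hS.hU.mem_nhds hφ)).hasDerivAt.add (d2 hS hψ hφ))

theorem q_dd {ψ φ : ℂ} (hψ : ψ ∈ Rc r r) (hφ : φ ∈ U) :
    deriv (deriv (fun w => g w + (Φ w + s' ψ w))) φ =
      deriv (deriv g) φ + (deriv (deriv Φ) φ + fderiv ℂ (g2 s') (ψ, φ) (0, 1)) := by
  have h1 : deriv (fun w => g w + (Φ w + s' ψ w)) =ᶠ[𝓝 φ]
      fun w => deriv g w + (deriv Φ w + g2 s' (ψ, w)) := by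
    filter_upwards [hS.hU.mem_nhds hφ] with w hw
    exact (q_hd hS hg hΦ hψ hw).deriv
  rw [h1.deriv_eq]
  have h2 : HasDerivAt (deriv Φ) (deriv (deriv Φ) φ) φ :=
    ((hΦ.deriv hS.hU).differentiableAt (hS.hU.mem_nhds hφ)).hasDerivAt
  have h4 : HasDerivAt (deriv g) (deriv (deriv g) φ) φ :=
    ((hg.deriv hS.hU).differentiableAt (hS.hU.mem_nhds hφ)).hasDerivAt
  have h3 := deriv_snd (at_W hS (g2_d hS) hψ hφ)
  exact (h4.add (h2.add h3)).deriv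

end

/-- job E2: the critical point at a small vertex as a function of the variable of the parent -/
theorem hcg : S_HCG := by
  intro r c' C₀ U σ g j z₀ x₂ hr hc0 hU hsan hsbd hev hconc1 hg hx hseg hcrit0 hneg0 hline0 r₁ hr₁
  obtain ⟨C', hC'⟩ : ∃ C' : ℝ, C' = max C₀ 1 := ⟨_, rfl⟩
  have hC0 : 0 < C' := by rw [hC']; exact lt_max_of_lt_right one_pos
  have hS : SP r c' C' U σ :=
    { hr := hr, hC := hC0, hU := hU, san := hsan,
      sbd := fun ψ hψ φ hφ => (hsbd ψ hψ φ hφ).trans (by rw [hC']; exact le_max_left _ _),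
      ev := hev, conc1 := hconc1 }
  have h0r : (0 : ℂ) ∈ Rc r r := half_sub hS (zero_half hS)
  have hσ0 : DifferentiableOn ℂ (fun w => σ 0 w) U := fun w hw =>
    (d2 hS h0r hw).differentiableAt.differentiableWithinAt
  have hCD : CD U (fun w => g w + (j + 1) * σ 0 w) z₀ x₂ :=
    { hU := hU, hd := hg.add (hσ0.const_mul _), hx := hx, seg := hseg, crit := hcrit0,
      neg := hneg0, line := hline0 }
  obtain ⟨ε, hε, hline⟩ := line_stab hCD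
  obtain ⟨c, ρ, hc, hρ, hball, hnear⟩ := near_stab hCD
  obtain ⟨δ, hδ⟩ : ∃ δ : ℝ, δ = min ρ (min r₁ ε) := ⟨_, rfl⟩
  have hδ0 : 0 < δ := by rw [hδ]; exact lt_min hρ (lt_min hr₁ hε)
  have hδρ : δ ≤ ρ := by rw [hδ]; exact min_le_left _ _
  have hδr : δ ≤ r₁ := by rw [hδ]; exact (min_le_right _ _).trans (min_le_left _ _)
  have hδε : δ ≤ ε := by rw [hδ]; exact (min_le_right _ _).trans (min_le_right _ _)
  obtain ⟨ε₁, hε₁⟩ : ∃ ε₁ : ℝ, ε₁ = min ε (c * ρ * δ / 8) / 2 := ⟨_, rfl⟩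
  have hε0 : 0 < ε₁ := by rw [hε₁]; exact half_pos (lt_min hε (by positivity))
  have hεa : 2 * ε₁ ≤ ε := by rw [hε₁]; linarith [min_le_left ε (c * ρ * δ / 8)]
  have hεb : 2 * ε₁ ≤ c * ρ * δ / 8 := by rw [hε₁]; linarith [min_le_right ε (c * ρ * δ / 8)]
  obtain ⟨L, hL⟩ : ∃ L : ℝ, L = C' / (r / 4) := ⟨_, rfl⟩
  have hL0 : 0 < L := by rw [hL]; positivity
  obtain ⟨M₁, hM₁⟩ : ∃ M₁ : ℝ, M₁ = 2 * C' / (r / 4) ^ 2 := ⟨_, rfl⟩
  have hM₁0 : 0 < M₁ := by rw [hM₁]; positivity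
  obtain ⟨M₂, hM₂⟩ : ∃ M₂ : ℝ, M₂ = C' / ρ / (r / 4) := ⟨_, rfl⟩
  have hM₂0 : 0 < M₂ := by rw [hM₂]; positivity
  obtain ⟨K, hK⟩ : ∃ K : ℝ, K = M₂ / c := ⟨_, rfl⟩
  have hK0 : 0 < K := by rw [hK]; positivity
  obtain ⟨r₂, hr₂⟩ : ∃ r₂ : ℝ, r₂ = min (r / 2) (min (ε₁ / (2 * L)) (c' * ρ / (4 * (M₁ * K)))) :=
    ⟨_, rfl⟩
  have hr₂0 : 0 < r₂ := by
    rw [hr₂]
    exact lt_min (by positivity) (lt_min (by positivity) (by positivity))
  have hr₂a : r₂ ≤ r / 2 := by rw [hr₂]; exact min_le_left _ _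
  have hr₂b : L * (2 * r₂) ≤ ε₁ := by
    have h1 : r₂ ≤ ε₁ / (2 * L) := by rw [hr₂]; exact (min_le_right _ _).trans (min_le_left _ _)
    rw [le_div_iff₀ (by positivity)] at h1
    linarith
  have hr₂c : M₁ * (2 * r₂) / ρ * K ≤ c' / 2 := by
    have h1 : r₂ ≤ c' * ρ / (4 * (M₁ * K)) := by
      rw [hr₂]; exact (min_le_right _ _).trans (min_le_right _ _)
    rw [le_div_iff₀ (by positivity)] at h1
    rw [div_mul_eq_mul_div, div_le_iff₀ (by positivity)]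
    linarith
  refine ⟨ε₁, r₂, M₁ + c' / 2, hε0, hr₂0, by linarith, by positivity, ?_⟩
  intro f Φ hΦ hcl
  have hVh : Rc r₂ r₂ ⊆ Rc (r / 2) (r / 2) := Rc_le hr₂a hr₂a
  have hVr : Rc r₂ r₂ ⊆ Rc r r := hVh.trans (half_sub hS)
  have hVo := Rc_open r₂ r₂
  have hcb : ∀ w ∈ ball z₀ ρ, closedBall w ρ ⊆ U := by
    intro w hw v hv
    refine hball ?_
    rw [mem_closedBall] at hv ⊢
    rw [mem_ball] at hw
    calc dist v z₀ ≤ dist v w + dist w z₀ := dist_triangle _ _ _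
      _ ≤ 2 * ρ := by linarith
  have hbU : ball z₀ ρ ⊆ U := fun w hw => hcb w hw (mem_closedBall_self hρ.le)
  have hHd : ∀ ψ ∈ Rc r₂ r₂, DifferentiableOn ℂ (fun w => g w + (Φ w + σ ψ w)) U :=
    fun ψ hψ w hw => (q_hd hS hg hΦ (hVr hψ) hw).differentiableAt.differentiableWithinAt
  have hHb : ∀ ψ ∈ Rc r₂ r₂, ∀ w ∈ U,
      ‖(g w + (Φ w + σ ψ w)) - f - (g w + (j + 1) * σ 0 w)‖ ≤ 2 * ε₁ := by
    intro ψ hψ φ hφ
    have e1 : (g φ + (Φ φ + σ ψ φ)) - f - (g φ + (j + 1) * σ 0 φ) =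
        (Φ φ - f - j * σ 0 φ) + (σ ψ φ - σ 0 φ) := by ring
    rw [e1]
    refine (norm_add_le _ _).trans ?_
    have e2 := hcl φ hφ
    have e3 := lip1 hS (hVh hψ) hφ
    rw [← hL] at e3
    have e4 : L * ‖ψ‖ ≤ L * (2 * r₂) := mul_le_mul_of_nonneg_left (Rc_norm hψ).le hL0.le
    linarith
  have hcc : ∀ ψ ∈ Rc r₂ r₂, ∀ w ∈ ball z₀ ρ,
      (deriv (deriv fun w => g w + (Φ w + σ ψ w)) w).re ≤ -c := fun ψ hψ =>
    (hnear δ hδ0 hδρ f _ (hHd ψ hψ) (fun w hw => (hHb ψ hψ w hw).trans hεb)).1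
  -- the critical points
  have hex : ∀ ψ : ℂ, ψ ∈ Rc r₂ r₂ → ∃ z : ℂ, ‖z - z₀‖ ≤ δ / 2 ∧
      deriv (fun w => g w + (Φ w + σ ψ w)) z = 0 := fun ψ hψ =>
    (hnear δ hδ0 hδρ f _ (hHd ψ hψ) (fun w hw => (hHb ψ hψ w hw).trans hεb)).2
  choose! zs hz1 hz3 using hex
  have hz2 : ∀ ψ ∈ Rc r₂ r₂, zs ψ ∈ ball z₀ ρ := by
    intro ψ hψ
    rw [mem_ball, dist_eq_norm]
    linarith [hz1 ψ hψ]
  have hzU : ∀ ψ ∈ Rc r₂ r₂, zs ψ ∈ U := fun ψ hψ => hbU (hz2 ψ hψ)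
  have hcrit : ∀ ψ ∈ Rc r₂ r₂, deriv g (zs ψ) + (deriv Φ (zs ψ) + g2 σ (ψ, zs ψ)) = 0 := by
    intro ψ hψ
    rw [← (q_hd hS hg hΦ (hVr hψ) (hzU ψ hψ)).deriv]
    exact hz3 ψ hψ
  have hconc : ∀ ψ ∈ Rc r₂ r₂, ∀ z ∈ ball z₀ ρ, ∀ z' ∈ ball z₀ ρ,
      c * ‖z - z'‖ ≤ ‖(deriv g z + (deriv Φ z + g2 σ (ψ, z))) -
        (deriv g z' + (deriv Φ z' + g2 σ (ψ, z')))‖ := by
    intro ψ hψ z hz z' hz'
    have h1 := conc_seg (convex_ball z₀ ρ) isOpen_ball ((hHd ψ hψ).mono hbU) (hcc ψ hψ) hz hz'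
    rw [(q_hd hS hg hΦ (hVr hψ) (hbU hz)).deriv, (q_hd hS hg hΦ (hVr hψ) (hbU hz')).deriv] at h1
    exact h1
  have huniq : ∀ ψ ∈ Rc r₂ r₂, ∀ z ∈ ball z₀ ρ,
      deriv g z + (deriv Φ z + g2 σ (ψ, z)) = 0 → z = zs ψ := by
    intro ψ hψ z hz h0
    have h1 := hconc ψ hψ z hz (zs ψ) (hz2 ψ hψ)
    rw [h0, hcrit ψ hψ, sub_zero, norm_zero] at h1
    have h2 : ‖z - zs ψ‖ ≤ 0 := by
      by_contra h3
      push Not at h3
      have := mul_pos hc h3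
      linarith
    exact sub_eq_zero.1 (norm_le_zero_iff.1 h2)
  -- Lipschitz
  have hlip : ∀ ψ ∈ Rc r₂ r₂, ∀ ψ' ∈ Rc r₂ r₂, ‖zs ψ' - zs ψ‖ ≤ K * ‖ψ' - ψ‖ := by
    intro ψ hψ ψ' hψ'
    have h1 := hconc ψ hψ (zs ψ') (hz2 ψ' hψ') (zs ψ) (hz2 ψ hψ)
    rw [hcrit ψ hψ] at h1
    have e1 : (deriv g (zs ψ') + (deriv Φ (zs ψ') + g2 σ (ψ, zs ψ'))) - 0 =
        g2 σ (ψ, zs ψ') - g2 σ (ψ', zs ψ') := by
      linear_combination hcrit ψ' hψ'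
    rw [e1] at h1
    have h2 := lip2 hS hρ (hVh hψ) (hVh hψ') (hcb _ (hz2 ψ' hψ'))
    rw [← hM₂, norm_sub_rev ψ ψ'] at h2
    rw [hK, div_mul_eq_mul_div, le_div_iff₀ hc]
    linarith
  -- differentiability of `zs`
  have hzd : ∀ ψ ∈ Rc r₂ r₂, DifferentiableAt ℂ zs ψ := by
    intro ψ hψ
    have hzψ := hzU ψ hψ
    have hΦ1 : DifferentiableAt ℂ (fun p : ℂ × ℂ => deriv Φ p.2) (ψ, zs ψ) :=
      DifferentiableAt.comp (g := deriv Φ) (ψ, zs ψ)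
        ((hΦ.deriv hU).differentiableAt (hU.mem_nhds hzψ)) differentiableAt_snd
    have hg1' : DifferentiableAt ℂ (fun p : ℂ × ℂ => deriv g p.2) (ψ, zs ψ) :=
      DifferentiableAt.comp (g := deriv g) (ψ, zs ψ)
        ((hg.deriv hU).differentiableAt (hU.mem_nhds hzψ)) differentiableAt_snd
    have hg2 := at_W hS (g2_d hS) (hVr hψ) hzψ
    have hH : DifferentiableAt ℂ (fun p : ℂ × ℂ => deriv g p.2 + (deriv Φ p.2 + g2 σ p))
        (ψ, zs ψ) := hg1'.add (hΦ1.add hg2)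
    refine implicit (H := fun p : ℂ × ℂ => deriv g p.2 + (deriv Φ p.2 + g2 σ p)) hH ?_
      (K := K) ?_ ?_
    · filter_upwards [hVo.mem_nhds hψ] with w hw
      exact hcrit w hw
    · filter_upwards [hVo.mem_nhds hψ] with w hw
      exact hlip ψ hψ w hw
    · intro h0
      have h1 := deriv_snd hH
      rw [h0] at h1
      have h2 := q_dd hS hg hΦ (hVr hψ) hzψ
      have h3 : HasDerivAt (deriv Φ) (deriv (deriv Φ) (zs ψ)) (zs ψ) :=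
        ((hΦ.deriv hU).differentiableAt (hU.mem_nhds hzψ)).hasDerivAt
      have h3' : HasDerivAt (deriv g) (deriv (deriv g) (zs ψ)) (zs ψ) :=
        ((hg.deriv hU).differentiableAt (hU.mem_nhds hzψ)).hasDerivAt
      have h4 := h3'.add (h3.add (deriv_snd hg2))
      have h5 : (0 : ℂ) = deriv (deriv g) (zs ψ) + (deriv (deriv Φ) (zs ψ) +
          fderiv ℂ (g2 σ) (ψ, zs ψ) (0, 1)) := h1.unique h4
      have h6 := hcc ψ hψ _ (hz2 ψ hψ)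
      rw [h2, ← h5, Complex.zero_re] at h6
      linarith
  have hzb : ∀ ψ ∈ Rc r₂ r₂, ‖deriv zs ψ‖ ≤ K := by
    intro ψ hψ
    refine norm_deriv_le_of_lip' hK0.le ?_
    filter_upwards [hVo.mem_nhds hψ] with w hw
    exact hlip ψ hψ w hw
  -- the critical value
  obtain ⟨F, hF⟩ : ∃ F : ℂ → ℂ, F = fun ψ => g (zs ψ) + (Φ (zs ψ) + σ ψ (zs ψ)) := ⟨_, rfl⟩
  have hFd : ∀ ψ ∈ Rc r₂ r₂, HasDerivAt F (g1 σ (ψ, zs ψ)) ψ := by
    intro ψ hψ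
    have hzψ := hzU ψ hψ
    have e1 : HasDerivAt zs (deriv zs ψ) ψ := (hzd ψ hψ).hasDerivAt
    have e2 : HasDerivAt (fun ψ => g (zs ψ)) (deriv g (zs ψ) * deriv zs ψ) ψ :=
      HasDerivAt.comp ψ (hg.differentiableAt (hU.mem_nhds hzψ)).hasDerivAt e1
    have e3 : HasDerivAt (fun ψ => Φ (zs ψ)) (deriv Φ (zs ψ) * deriv zs ψ) ψ :=
      HasDerivAt.comp ψ (hΦ.differentiableAt (hU.mem_nhds hzψ)).hasDerivAt e1
    have e4 : HasDerivAt (fun ψ => σ ψ (zs ψ))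
        (fderiv ℂ (SS σ) (ψ, zs ψ) (1, deriv zs ψ)) ψ :=
      HasFDerivAt.comp_hasDerivAt (l := SS σ) (f := fun ψ => (ψ, zs ψ)) ψ
        (at_W hS (SS_d hS) (hVr hψ) hzψ).hasFDerivAt ((hasDerivAt_id ψ).prodMk e1)
    rw [hF]
    refine (e2.add (e3.add e4)).congr_deriv ?_
    rw [fderiv_pair]
    have e5 : fderiv ℂ (SS σ) (ψ, zs ψ) (1, 0) = g1 σ (ψ, zs ψ) := rfl
    have e6 : fderiv ℂ (SS σ) (ψ, zs ψ) (0, 1) = g2 σ (ψ, zs ψ) := rfl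
    rw [e5, e6]
    linear_combination (deriv zs ψ) * hcrit ψ hψ
  have hFdd : ∀ ψ ∈ Rc r₂ r₂, deriv (deriv F) ψ =
      fderiv ℂ (g1 σ) (ψ, zs ψ) (1, 0) + deriv zs ψ * fderiv ℂ (g1 σ) (ψ, zs ψ) (0, 1) := by
    intro ψ hψ
    have hzψ := hzU ψ hψ
    have e1 : HasDerivAt zs (deriv zs ψ) ψ := (hzd ψ hψ).hasDerivAt
    have h1 : deriv F =ᶠ[𝓝 ψ] fun ψ => g1 σ (ψ, zs ψ) := by
      filter_upwards [hVo.mem_nhds hψ] with w hw
      exact (hFd w hw).deriv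
    rw [h1.deriv_eq]
    have e4 : HasDerivAt (fun ψ => g1 σ (ψ, zs ψ))
        (fderiv ℂ (g1 σ) (ψ, zs ψ) (1, deriv zs ψ)) ψ :=
      HasFDerivAt.comp_hasDerivAt (l := g1 σ) (f := fun ψ => (ψ, zs ψ)) ψ
        (at_W hS (g1_d hS) (hVr hψ) hzψ).hasFDerivAt ((hasDerivAt_id ψ).prodMk e1)
    rw [e4.deriv, fderiv_pair, one_mul]
  have herr : ∀ ψ ∈ Rc r₂ r₂,
      ‖deriv zs ψ * fderiv ℂ (g1 σ) (ψ, zs ψ) (0, 1)‖ ≤ c' / 2 := by
    intro ψ hψ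
    rw [norm_mul]
    have h1 := b12 hS hρ (hVh hψ) (hcb _ (hz2 ψ hψ))
    rw [← hM₁] at h1
    have h2 : M₁ * ‖ψ‖ / ρ ≤ M₁ * (2 * r₂) / ρ := by
      refine div_le_div_of_nonneg_right ?_ (by positivity)
      exact mul_le_mul_of_nonneg_left (Rc_norm hψ).le hM₁0.le
    calc ‖deriv zs ψ‖ * ‖fderiv ℂ (g1 σ) (ψ, zs ψ) (0, 1)‖
        ≤ K * (M₁ * (2 * r₂) / ρ) :=
          mul_le_mul (hzb ψ hψ) (h1.trans h2) (norm_nonneg _) hK0.le
      _ = M₁ * (2 * r₂) / ρ * K := mul_comm _ _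
      _ ≤ c' / 2 := hr₂c
  refine ⟨F, zs, ?_, ?_, ?_, ?_, ?_⟩
  · intro ψ hψ
    exact (hFd ψ hψ).differentiableAt.differentiableWithinAt
  · intro ψ hψ
    exact (hzd ψ hψ).differentiableWithinAt
  · intro ψ hψ
    have hψn := Rc_neg hψ
    have hev' : ∀ φ ∈ U, σ (-ψ) φ = σ ψ φ := fun φ hφ => hS.ev ψ (hVr hψ) φ hφ
    have hz : zs (-ψ) = zs ψ := by
      refine huniq ψ hψ _ (hz2 _ hψn) ?_
      have h1 : g2 σ (ψ, zs (-ψ)) = g2 σ (-ψ, zs (-ψ)) := by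
        have hm := hzU _ hψn
        rw [← (d2 hS (hVr hψ) hm).deriv, ← (d2 hS (hVr hψn) hm).deriv]
        refine Filter.EventuallyEq.deriv_eq ?_
        filter_upwards [hU.mem_nhds hm] with w hw
        exact (hev' w hw).symm
      rw [h1]
      exact hcrit _ hψn
    rw [hF]
    simp only []
    rw [hz, hev' _ (hzU ψ hψ)]
  · intro ψ hψ
    have hm := hzU ψ hψ
    rw [hFdd ψ hψ]
    constructor
    · rw [Complex.add_re, ← dd1 hS (hVr hψ) hm]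
      have h1 := hS.conc1 ψ (hVr hψ) _ hm
      have h2 := (Complex.re_le_norm _).trans (herr ψ hψ)
      linarith
    · refine (norm_add_le _ _).trans ?_
      have h1 := (b1 hS (hVh hψ) hm).2
      rw [← hM₁] at h1
      exact add_le_add h1 (herr ψ hψ)
  · intro ψ hψ
    have hm := hzU ψ hψ
    refine ⟨?_, hm, hz3 ψ hψ, ?_, ?_, by rw [hF], ?_⟩
    · linarith [hz1 ψ hψ]
    · exact (hcc ψ hψ _ (hz2 ψ hψ)).trans_lt (by linarith)
    · have h1 := hline (fun w => g w + (Φ w + σ ψ w) - f) (zs ψ)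
        ((hHd ψ hψ).sub (differentiableOn_const f))
        (fun w hw => (hHb ψ hψ w hw).trans hεa) (by linarith [hz1 ψ hψ]) (by
          rw [deriv_sub_const]
          exact hz3 ψ hψ)
      intro x hx
      refine ⟨(h1 x hx).1, fun hne => ?_⟩
      have h2 := (h1 x hx).2 hne
      rw [Complex.sub_re, Complex.sub_re] at h2
      linarith
    · rw [(d1 hS (hVr hψ) hm).deriv]
      exact hFd ψ hψ

/-- job E3: the critical point at a small vertex which is the root -/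
theorem hcr : S_HCR := by
  intro U g σ z₀ x₂ hU hg hσ hx hseg hcrit0 hneg0 hline0 r₁ hr₁
  have hCD : CD U (fun w => g w + σ w) z₀ x₂ :=
    { hU := hU, hd := hg.add hσ, hx := hx, seg := hseg, crit := hcrit0,
      neg := hneg0, line := hline0 }
  obtain ⟨ε, hε, hline⟩ := line_stab hCD
  obtain ⟨c, ρ, hc, hρ, hball, hnear⟩ := near_stab hCD
  obtain ⟨δ, hδ⟩ : ∃ δ : ℝ, δ = min ρ (min r₁ ε) := ⟨_, rfl⟩
  have hδ0 : 0 < δ := by rw [hδ]; exact lt_min hρ (lt_min hr₁ hε)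
  have hδρ : δ ≤ ρ := by rw [hδ]; exact min_le_left _ _
  have hδr : δ ≤ r₁ := by rw [hδ]; exact (min_le_right _ _).trans (min_le_left _ _)
  have hδε : δ ≤ ε := by rw [hδ]; exact (min_le_right _ _).trans (min_le_right _ _)
  refine ⟨min ε (c * ρ * δ / 8), lt_min hε (by positivity), ?_⟩
  intro f Φ hΦ hcl
  have hHd : DifferentiableOn ℂ (fun w => g w + Φ w) U := hg.add hΦ
  have hHb : ∀ w ∈ U, ‖(g w + Φ w) - f - (g w + σ w)‖ ≤ min ε (c * ρ * δ / 8) := by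
    intro w hw
    have e1 : (g w + Φ w) - f - (g w + σ w) = Φ w - f - σ w := by ring
    rw [e1]
    exact hcl w hw
  obtain ⟨hcc, z, hz1, hz3⟩ := hnear δ hδ0 hδρ f _ hHd
    (fun w hw => (hHb w hw).trans (min_le_right _ _))
  have hz2 : z ∈ ball z₀ ρ := by
    rw [mem_ball, dist_eq_norm]
    linarith
  have hzU : z ∈ U := by
    refine hball ?_
    rw [mem_ball] at hz2
    rw [mem_closedBall]
    linarith
  refine ⟨z, by linarith, hzU, hz3, (hcc z hz2).trans_lt (by linarith), ?_⟩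
  have h1 := hline (fun w => g w + Φ w - f) z (hHd.sub (differentiableOn_const f))
    (fun w hw => (hHb w hw).trans (min_le_left _ _)) (by linarith) (by
      rw [deriv_sub_const]
      exact hz3)
  intro x hx
  refine ⟨(h1 x hx).1, fun hne => ?_⟩
  have h2 := (h1 x hx).2 hne
  rw [Complex.sub_re, Complex.sub_re] at h2
  linarith

end Pool.Agent.N424.VS
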