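import Pool.Agent.N561.A.Stm2
import Pool.Agent.N424.VS.Hcg

/-!
# Project VS, job H: the step at a small vertex, the path
-/

set_option autoImplicit false

namespace Pool.Agent.N424.VS

open Filter Finset Topology Metric
open Pool.Agent.N561
open Pool.Agent.W711.HT
open scoped Real

theorem GG_open : IsOpen GG := by
  have h1 : Continuous fun φ : ℂ => |φ.re| := Complex.continuous_re.abs
  have h2 : Continuous fun φ : ℂ => Real.cos φ.re * Real.cosh φ.im :=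
    (Real.continuous_cos.comp Complex.continuous_re).mul
      (Real.continuous_cosh.comp Complex.continuous_im)
  exact (isOpen_lt h1 continuous_const).inter ((isOpen_lt continuous_const
    Complex.continuous_im).inter ((isOpen_lt Complex.continuous_im continuous_const).inter
      (isOpen_lt continuous_const h2)))

theorem GG_re {φ : ℂ} (h : φ ∈ GG) : |φ.re| < π := by
  have h1 := h.1
  have h2 := Real.pi_gt_three
  linarith

theorem sf_der (hS : S_SF) {φ : ℂ} (h : |φ.re| < π) :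
    HasDerivAt sf (-(1 / π) * gdi (φ / 2)) φ := (hS.2.1 φ h).1

theorem sg_eq (hS : S_SF) {φ : ℂ} (h : φ ∈ GG) : sg 0 φ = sf φ := hS.2.2.2.1 φ h

theorem Vr_cont (hS : S_SF) (n : ℕ) (a : ℤ) : ContinuousOn (Vr n a) GG := by
  have h1 : ContinuousOn sf GG := fun φ hφ =>
    (sf_der hS (GG_re hφ)).continuousAt.continuousWithinAt
  have h2 : ContinuousOn (fun φ : ℂ => Complex.I * a * φ ^ 2 / (4 * π) + Complex.I * φ + n * sf φ)
      GG := (Continuous.continuousOn (by fun_prop)).add (continuousOn_const.mul h1)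
  exact Complex.continuous_re.comp_continuousOn h2

/-- a margin on a compact set -/
theorem margin {K : Set ℂ} (hK : IsCompact K) {f : ℂ → ℝ} (hf : ContinuousOn f K) {V : ℝ}
    (h : ∀ w ∈ K, f w < V) : ∃ m : ℝ, 0 < m ∧ ∀ w ∈ K, f w ≤ V - m := by
  rcases K.eq_empty_or_nonempty with h0 | h0
  · exact ⟨1, one_pos, fun w hw => by rw [h0] at hw; exact absurd hw (Set.notMem_empty _)⟩
  · obtain ⟨x, hx, hmax⟩ := hK.exists_isMaxOn h0 hf
    refine ⟨V - f x, by linarith [h x hx], fun w hw => ?_⟩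
    have := hmax hw
    simp only [Set.mem_ofPred_eq] at this
    linarith

/-- the part of the path without the line through the critical point -/
def Pt1 (x₁ x₂ y₁ y₂ τ₁ : ℝ) : Set ℂ := {w | (|w.re| = x₁ ∧ τ₁ ≤ w.im ∧ w.im ≤ y₁) ∨
  (x₂ ≤ |w.re| ∧ |w.re| ≤ x₁ ∧ w.im = y₁) ∨ (|w.re| = x₂ ∧ y₁ ≤ w.im ∧ w.im ≤ y₂)}

theorem Pt1_compact {x₁ x₂ y₁ y₂ τ₁ : ℝ} (hx : x₂ ≤ x₁) (hy : y₁ ≤ y₂) (hτ : 0 < τ₁)
    (hy1 : 0 < y₁) : IsCompact (Pt1 x₁ x₂ y₁ y₂ τ₁) := by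
  have hr : Continuous fun φ : ℂ => |φ.re| := Complex.continuous_re.abs
  have hi : Continuous fun φ : ℂ => φ.im := Complex.continuous_im
  have hcl : IsClosed (Pt1 x₁ x₂ y₁ y₂ τ₁) := by
    refine IsClosed.union ?_ (IsClosed.union ?_ ?_)
    · exact (isClosed_eq hr continuous_const).inter ((isClosed_le continuous_const hi).inter
        (isClosed_le hi continuous_const))
    · exact (isClosed_le continuous_const hr).inter ((isClosed_le hr continuous_const).inter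
        (isClosed_eq hi continuous_const))
    · exact (isClosed_eq hr continuous_const).inter ((isClosed_le continuous_const hi).inter
        (isClosed_le hi continuous_const))
  refine (isCompact_Icc.reProdIm isCompact_Icc : IsCompact
    (Set.Icc (-x₁) x₁ ×ℂ Set.Icc 0 y₂)).of_isClosed_subset hcl ?_
  intro w hw
  rw [Complex.mem_reProdIm, Set.mem_Icc, Set.mem_Icc, ← abs_le]
  rcases hw with ⟨h1, h2, h3⟩ | ⟨h1, h2, h3⟩ | ⟨h1, h2, h3⟩
  · exact ⟨h1.le, by linarith, by linarith⟩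
  · exact ⟨h2, by linarith, by linarith⟩
  · exact ⟨by linarith, by linarith, by linarith⟩

/-- the path, with margins -/
theorem path_data (hS : S_SF) {n : ℕ} {a : ℤ} {z₀ : ℂ} {x₁ x₂ y₁ τ₁ : ℝ}
    (h : PathD n a z₀ x₁ x₂ y₁) (hτ : 0 < τ₁) (hτy : τ₁ < y₁) :
    ∃ (Q : Set ℂ) (δ m : ℝ), IsCompact Q ∧ Q ⊆ GG ∧ 0 < δ ∧ 0 < m ∧ τ₁ ≤ y₁ - δ ∧
      (∀ x : ℝ, |x| ≤ x₂ → (x + z₀.im * Complex.I : ℂ) ∈ Q) ∧
      ∀ y₂ : ℝ, |y₂ - z₀.im| ≤ δ → y₁ - δ ≤ y₂ ∧ Pth x₁ x₂ (y₁ - δ) y₂ τ₁ ⊆ Q ∧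
        ∀ w ∈ Pth x₁ x₂ (y₁ - δ) y₂ τ₁, (|w.re| ≤ x₂ ∧ w.im = y₂) ∨
          Vr n a w ≤ Vr n a z₀ - m := by
  obtain ⟨o1, o2, o3, o4, o5⟩ := h.ord
  have hz0 : 0 ≤ z₀.re := h.zre
  have hwe : ∀ w : ℂ, (w.re : ℂ) + w.im * Complex.I = w := Complex.re_add_im
  obtain ⟨K₁, hK₁⟩ : ∃ K₁ : Set ℂ, K₁ = Pt1 x₁ x₂ y₁ z₀.im τ₁ := ⟨_, rfl⟩
  have hK₁c : IsCompact K₁ := by rw [hK₁]; exact Pt1_compact o2 o5 hτ o4
  obtain ⟨K₂, hK₂⟩ : ∃ K₂ : Set ℂ, K₂ = Set.Icc (-x₂) x₂ ×ℂ Set.Icc z₀.im z₀.im := ⟨_, rfl⟩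
  have hK₂c : IsCompact K₂ := by rw [hK₂]; exact isCompact_Icc.reProdIm isCompact_Icc
  have hWo : IsOpen {w : ℂ | w ∈ GG ∧ Vr n a w < Vr n a z₀} :=
    (Vr_cont hS n a).isOpen_inter_preimage GG_open isOpen_Iio
  have hK₁W : K₁ ⊆ {w : ℂ | w ∈ GG ∧ Vr n a w < Vr n a z₀} := by
    intro w hw
    rw [hK₁] at hw
    have e := hwe w
    rcases hw with ⟨h1, h2, h3⟩ | ⟨h1, h2, h3⟩ | ⟨h1, h2, h3⟩
    · constructor
      · rw [← e]; exact h.in1 _ _ h1.le (by linarith) h3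
      · rcases (abs_eq (by linarith : (0 : ℝ) ≤ x₁)).1 h1 with h4 | h4
        · rw [← e, h4]; exact (h.side1 _ (by linarith) h3).1
        · rw [← e, h4]
          have := (h.side1 w.im (by linarith) h3).2
          push_cast
          exact this
    · constructor
      · rw [← e]; exact h.in1 _ _ h2 (by linarith) h3.le
      · rw [← e, h3]; exact h.hor1 _ h1 h2
    · constructor
      · rw [← e]; exact h.in2 _ _ h1.le h2 h3
      · rcases (abs_eq (by linarith : (0 : ℝ) ≤ x₂)).1 h1 with h4 | h4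
        · rw [← e, h4]; exact (h.side2 _ h2 h3).1
        · rw [← e, h4]
          have := (h.side2 w.im h2 h3).2
          push_cast
          exact this
  have hK₂G : K₂ ⊆ GG := by
    intro w hw
    rw [hK₂, Complex.mem_reProdIm, Set.mem_Icc, Set.mem_Icc, ← abs_le] at hw
    have e := hwe w
    rw [← e]
    exact h.in2 _ _ hw.1 (o5.trans hw.2.1) hw.2.2
  obtain ⟨δ₁, hδ₁, hs₁⟩ := hK₁c.exists_cthickening_subset_open hWo hK₁W
  obtain ⟨δ₂, hδ₂, hs₂⟩ := hK₂c.exists_cthickening_subset_open GG_open hK₂G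
  obtain ⟨δ, hδ⟩ : ∃ δ : ℝ, δ = min (min δ₁ δ₂) (y₁ - τ₁) := ⟨_, rfl⟩
  have hδ0 : 0 < δ := by rw [hδ]; exact lt_min (lt_min hδ₁ hδ₂) (by linarith)
  have hδa : δ ≤ δ₁ := by rw [hδ]; exact (min_le_left _ _).trans (min_le_left _ _)
  have hδb : δ ≤ δ₂ := by rw [hδ]; exact (min_le_left _ _).trans (min_le_right _ _)
  have hδc : δ ≤ y₁ - τ₁ := by rw [hδ]; exact min_le_right _ _
  obtain ⟨m, hm0, hm⟩ := margin (hK₁c.cthickening (r := δ₁)) (V := Vr n a z₀)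
    ((Vr_cont hS n a).mono fun w hw => (hs₁ hw).1) (fun w hw => (hs₁ hw).2)
  refine ⟨cthickening δ₁ K₁ ∪ cthickening δ₂ K₂, δ, m, hK₁c.cthickening.union hK₂c.cthickening,
    Set.union_subset (fun w hw => (hs₁ hw).1) hs₂, hδ0, hm0, by linarith, ?_, ?_⟩
  · intro x hx
    right
    refine self_subset_cthickening K₂ ?_
    rw [hK₂, Complex.mem_reProdIm, Set.mem_Icc, Set.mem_Icc, ← abs_le]
    simp [hx]
  · intro y₂ hy₂
    have hy := abs_le.1 hy₂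
    have key : ∀ w ∈ Pth x₁ x₂ (y₁ - δ) y₂ τ₁, (|w.re| ≤ x₂ ∧ w.im = y₂) ∨
        w ∈ cthickening δ₁ K₁ := by
      intro w hw
      have hd : ∀ y : ℝ, |w.im - y| ≤ δ → (w.re + y * Complex.I : ℂ) ∈ K₁ →
          w ∈ cthickening δ₁ K₁ := by
        intro y h1 h2
        refine mem_cthickening_of_dist_le w _ δ₁ K₁ h2 ?_
        rw [Complex.dist_of_re_eq (by simp), Real.dist_eq]
        have e : (w.re + y * Complex.I : ℂ).im = y := by simp
        rw [e]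
        exact h1.trans hδa
      rcases hw with ⟨h1, h2, h3⟩ | ⟨h1, h2, h3⟩ | ⟨h1, h2, h3⟩ | h1
      · right
        refine self_subset_cthickening K₁ ?_
        rw [hK₁]
        exact Or.inl ⟨h1, h2, by linarith⟩
      · right
        refine hd y₁ ?_ ?_
        · rw [h3, sub_sub_cancel_left, abs_neg, abs_of_pos hδ0]
        · rw [hK₁]
          refine Or.inr (Or.inl ?_)
          simp [h1, h2]
      · right
        refine hd (max y₁ (min w.im z₀.im)) ?_ ?_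
        · rw [abs_le]
          rcases le_total w.im z₀.im with h4 | h4
          · rw [min_eq_left h4]
            rcases le_total y₁ w.im with h5 | h5
            · rw [max_eq_right h5]; constructor <;> linarith
            · rw [max_eq_left h5]; constructor <;> linarith
          · rw [min_eq_right h4, max_eq_right o5]; constructor <;> linarith
        · rw [hK₁]
          refine Or.inr (Or.inr ?_)
          have e1 : (w.re + (max y₁ (min w.im z₀.im) : ℝ) * Complex.I : ℂ).re = w.re := by simp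
          have e2 : (w.re + (max y₁ (min w.im z₀.im) : ℝ) * Complex.I : ℂ).im =
            max y₁ (min w.im z₀.im) := by simp
          rw [e1, e2]
          exact ⟨h1, le_max_left _ _, max_le o5 (min_le_right _ _)⟩
      · left
        exact h1
    refine ⟨by linarith, fun w hw => ?_, fun w hw => ?_⟩
    · rcases key w hw with ⟨h1, h2⟩ | h1
      · right
        refine mem_cthickening_of_dist_le w (w.re + z₀.im * Complex.I) δ₂ K₂ ?_ ?_
        · rw [hK₂, Complex.mem_reProdIm, Set.mem_Icc, Set.mem_Icc, ← abs_le]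
          simp [h1]
        · rw [Complex.dist_of_re_eq (by simp), Real.dist_eq]
          have e : (w.re + z₀.im * Complex.I : ℂ).im = z₀.im := by simp
          rw [e, h2]
          exact hy₂.trans hδb
      · exact Or.inl h1
    · rcases key w hw with h1 | h1
      · exact Or.inl h1
      · exact Or.inr (hm w h1)

/-- the data at a small vertex; `V₀` is the value without the constant `f` -/
structure SV (n : ℕ) (a : ℤ) (z₀ : ℂ) (x₁ x₂ y τ₁ δ m : ℝ) (U : Set ℂ) : Prop where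
  hU : IsOpen U
  UG : U ⊆ GG
  ord : |z₀.re| < x₂ ∧ x₂ ≤ x₁ ∧ x₁ < π
  hτ : 0 < τ₁ ∧ τ₁ ≤ y
  hδ : 0 < δ
  hm : 0 < m
  seg : ∀ x : ℝ, |x| ≤ x₂ → (x + z₀.im * Complex.I : ℂ) ∈ U
  pth : ∀ y₂ : ℝ, |y₂ - z₀.im| ≤ δ → y ≤ y₂ ∧ Pth x₁ x₂ y y₂ τ₁ ⊆ U ∧
    ∀ w ∈ Pth x₁ x₂ y y₂ τ₁, (|w.re| ≤ x₂ ∧ w.im = y₂) ∨ Vr n a w ≤ Vr n a z₀ - m

/-- the value of the potential -/
theorem qq_val (hS : S_SF) {n : ℕ} (a : ℤ) {U : Set ℂ} (UG : U ⊆ GG) {G : ℂ → ℂ} {f : ℂ} {e : ℝ}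
    (hcl : ∀ w ∈ U, ‖G w - f - n * sg 0 w‖ ≤ e) {w : ℂ} (hw : w ∈ U) :
    |(qq a G w).re - (f.re + Vr n a w)| ≤ e := by
  have h1 := (Complex.abs_re_le_norm _).trans (hcl w hw)
  rw [sg_eq hS (UG hw)] at h1
  have e1 : (qq a G w).re - (f.re + Vr n a w) = (G w - f - n * sf w).re := by
    unfold qq Vr
    simp only [Complex.add_re, Complex.sub_re]
    ring
  rw [e1]
  exact h1

/-- on the path -/
theorem path_lt (hS : S_SF) {n : ℕ} {a : ℤ} {z₀ : ℂ} {x₁ x₂ y τ₁ δ m : ℝ} {U : Set ℂ}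
    (hV : SV n a z₀ x₁ x₂ y τ₁ δ m U) {G : ℂ → ℂ} {f : ℂ} {e μ : ℝ}
    (hcl : ∀ w ∈ U, ‖G w - f - n * sg 0 w‖ ≤ e) (he : e ≤ μ / 2) (hμ : μ ≤ m / 4) {z : ℂ}
    (hz : |z.im - z₀.im| ≤ δ) (hzU : z ∈ U) (hzV : Vr n a z₀ - μ / 2 ≤ Vr n a z)
    (hline : ∀ x : ℝ, |x| ≤ x₂ → x ≠ z.re →
      (qq a G (x + z.im * Complex.I)).re < (qq a G z).re) :
    ∀ w ∈ Pth x₁ x₂ y z.im τ₁, w ≠ z → (qq a G w).re < (qq a G z).re := by
  intro w hw hne
  obtain ⟨p1, p2, p3⟩ := hV.pth z.im hz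
  rcases p3 w hw with ⟨h1, h2⟩ | h1
  · have h3 : w.re ≠ z.re := fun h => hne (Complex.ext h h2)
    have h4 := hline w.re h1 h3
    rwa [← h2, Complex.re_add_im] at h4
  · have h2 := (abs_le.1 (qq_val hS a hV.UG hcl (p2 hw))).2
    have h3 := (abs_le.1 (qq_val hS a hV.UG hcl hzU)).1
    have h4 := hV.hm
    linarith

/-- the value at the critical point -/
theorem val_low (hS : S_SF) {n : ℕ} {a : ℤ} {z₀ : ℂ} {x₁ x₂ y τ₁ δ m : ℝ} {U : Set ℂ}
    (hV : SV n a z₀ x₁ x₂ y τ₁ δ m U) {G : ℂ → ℂ} {f : ℂ} {e μ : ℝ}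
    (hcl : ∀ w ∈ U, ‖G w - f - n * sg 0 w‖ ≤ e) (he : e ≤ μ / 2) {z : ℂ} (hzU : z ∈ U)
    (hzV : Vr n a z₀ - μ / 2 ≤ Vr n a z) : f.re + Vr n a z₀ - μ ≤ (qq a G z).re := by
  have h3 := (abs_le.1 (qq_val hS a hV.UG hcl hzU)).1
  linarith

/-- the integral at a small vertex -/
theorem out_lim (hO : S_OUT) (hS : S_SF) {n : ℕ} {a : ℤ} {z₀ : ℂ} {x₁ x₂ y τ₁ δ m : ℝ}
    {U : Set ℂ} (hV : SV n a z₀ x₁ x₂ y τ₁ δ m U) {G : ℂ → ℂ} {f : ℂ} {e μ : ℝ}
    (hG : DifferentiableOn ℂ G U)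
    (hcl : ∀ w ∈ U, ‖G w - f - n * sg 0 w‖ ≤ e) (he : e ≤ μ / 2) (hμ : μ ≤ m / 4) {z : ℂ}
    (hz : |z.im - z₀.im| ≤ δ) (hzr : |z.re| < x₂) (hzU : z ∈ U)
    (hzV : Vr n a z₀ - μ / 2 ≤ Vr n a z) (hcrit : deriv (qq a G) z = 0)
    (hneg : (deriv (deriv (qq a G)) z).re < 0)
    (hline : ∀ x : ℝ, |x| ≤ x₂ → x ≠ z.re →
      (qq a G (x + z.im * Complex.I)).re < (qq a G z).re)
    {P PL : ℕ → ℂ → ℂ} {B D : ℝ} (hP : ∀ N, Differentiable ℂ (P N))
    (hPL : ∀ N, Differentiable ℂ (PL N)) (hmw : ∀ V ⊆ U, IsCompact V → MW PL G V)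
    (hrb : ∀ᶠ N : ℕ in atTop, ∀ x y : ℝ, x₁ ≤ |x| → |x| ≤ π → |y| ≤ τ₁ →
      ‖PL N (x + y * Complex.I)‖ ≤ Real.exp (N * B))
    (hB : B + |(a : ℝ)| * τ₁ / 2 < f.re + Vr n a z₀ - μ)
    (hD' : ∀ᶠ N : ℕ in atTop, ∀ x y : ℝ, |x| ≤ π → |y| ≤ 1 / N →
      ‖P N (x + y * Complex.I) - PL N (x + y * Complex.I)‖ ≤ Real.exp (N * D))
    (hD : D < f.re + Vr n a z₀ - μ) :
    Tendsto (fun N : ℕ => Real.log ‖upp (1 / N) fun φ => Ea a N φ * P N φ * kr N φ‖ / N) atTop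
      (𝓝 (qq a G z).re) := by
  obtain ⟨p1, p2, p3⟩ := hV.pth z.im hz
  have h1 := val_low hS hV hcl he hzU hzV
  exact hO a U G x₁ x₂ y τ₁ z hV.hU hG hV.ord.2.1 hV.ord.2.2 hV.hτ.1 hV.hτ.2 p1 hzr p2 hcrit hneg
    (path_lt hS hV hcl he hμ hz hzU hzV hline) P PL B D hP hPL hmw hrb (by linarith) hD'
    (by linarith)

end Pool.Agent.N424.VS
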