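import Pool.Agent.N561.V.Defs
import Pool.Agent.TH563.V.Edge
import Pool.Agent.N424.VS.SmA

/-!
# Project VS, job H: the step at a small vertex, as a child
-/

set_option autoImplicit false

namespace Pool.Agent.N424.VS

open Filter Finset Topology Metric
open Pool.Agent.N561
open Pool.Agent.W711.HT hiding XX
open Pool.Agent.TH563.V
open Pool.Agent.W85.HT (Kc Kc_mem Kc_compact ker_diff ker_symm Rp_diff stp_eq)
open Pool.Agent.TH563.Z (unif2)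
open scoped Real

theorem k0_diff (N : ℕ) (p : ℂ) : Differentiable ℂ (fun φ => k0 N p φ) := by
  unfold k0
  apply Differentiable.fun_sum
  intro d _
  exact ((Rp_diff N d).const_mul _).div_const _

/-- the bounds of the kernel near the real axis, first part -/
def RK1 (x₁ τ ε : ℝ) : Prop := ∀ᶠ N : ℕ in atTop,
    ∀ x y x' y' : ℝ, x₁ ≤ |x| → |x| ≤ π → |y| ≤ τ → |x'| ≤ π → |y'| ≤ τ →
    ‖k0 N (x' + y' * Complex.I) (x + y * Complex.I)‖ ≤ Real.exp (N * (sx x₁ + ε))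

/-- the bounds of the kernel near the real axis, second part -/
def RK2 (τ ε : ℝ) : Prop := ∀ᶠ N : ℕ in atTop,
    ∀ x y x' y' : ℝ, |x| ≤ π → |y| ≤ τ → |x'| ≤ π → |y'| ≤ τ →
    ‖ker N (x' + y' * Complex.I) (x + y * Complex.I)‖ ≤ Real.exp (N * (2 * bet + ε)) ∧
    ‖k0 N (x' + y' * Complex.I) (x + y * Complex.I)‖ ≤ Real.exp (N * (2 * bet + ε)) ∧
    ‖ker N (x' + y' * Complex.I) (x + y * Complex.I) -
      k0 N (x' + y' * Complex.I) (x + y * Complex.I)‖ ≤ Real.exp (N * ε)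

theorem inv_ev' {t : ℝ} (ht : 0 < t) : ∀ᶠ N : ℕ in atTop, (1 : ℝ) / N ≤ t :=
  ((tendsto_const_div_atTop_nhds_zero_nat (1 : ℝ)).eventually_lt_const ht).mono
    fun _ h => h.le

theorem exp_ev {ε : ℝ} (hε : 0 < ε) : ∀ᶠ N : ℕ in atTop, (2 : ℝ) ≤ Real.exp (N * ε) := by
  have h1 : Tendsto (fun N : ℕ => (N : ℝ) * ε) atTop atTop :=
    tendsto_natCast_atTop_atTop.atTop_mul_const hε
  exact (Real.tendsto_exp_atTop.comp h1).eventually_ge_atTop 2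

section

variable {U : Set ℂ} {x₁ τ₁ ε₁ ε₂ : ℝ} {j : ℕ} {X XL : ℕ → ℂ → ℂ} {f : ℂ} {Φ : ℂ → ℂ}

/-- the product of the function and the kernel, near the real axis -/
theorem prod_rb (H : PSm U x₁ τ₁ ε₁ ε₂ j X XL f Φ) {τR : ℝ} (hR : RK1 x₁ τR (ε₂ / 2))
    (hτ : τ₁ ≤ τR) : ∀ᶠ N : ℕ in atTop, ∀ p : ℂ, |p.re| ≤ π → |p.im| ≤ τR →
      ∀ x y : ℝ, x₁ ≤ |x| → |x| ≤ π → |y| ≤ τ₁ →
      ‖XL N (x + y * Complex.I) * k0 N p (x + y * Complex.I)‖ ≤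
        Real.exp (N * (f.re + j * (sx x₁ + ε₂) + (sx x₁ + ε₂ / 2))) := by
  filter_upwards [H.rb, hR] with N h1 h2 p hp1 hp2 x y hx hx' hy
  have k1 := h1 x y hx hx' hy
  have k2 := h2 x y p.re p.im hx hx' (hy.trans hτ) hp1 hp2
  rw [Complex.re_add_im] at k2
  rw [norm_mul, mul_add, Real.exp_add]
  exact mul_le_mul k1 k2 (norm_nonneg _) (Real.exp_pos _).le

/-- the difference of the product and its lower part -/
theorem prod_diff (H : PSm U x₁ τ₁ ε₁ ε₂ j X XL f Φ) {τR ε : ℝ} (hε : 0 < ε) (hR : RK2 τR ε)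
    (hτ : 0 < τR) : ∀ᶠ N : ℕ in atTop, ∀ p : ℂ, |p.re| ≤ π → |p.im| ≤ τR →
      ∀ x y : ℝ, |x| ≤ π → |y| ≤ 1 / N →
      ‖X N (x + y * Complex.I) * ker N (x + y * Complex.I) p -
        XL N (x + y * Complex.I) * k0 N p (x + y * Complex.I)‖ ≤
        Real.exp (N * (f.re + j * (2 * bet) + 3 * ε)) := by
  filter_upwards [H.gl ε hε, hR, inv_ev' hτ, exp_ev hε] with N h1 h2 h3 h4 p hp1 hp2 x y hx hy
  obtain ⟨k1, k2, k3⟩ := h1 x y hx hy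
  obtain ⟨l1, l2, l3⟩ := h2 x y p.re p.im hx (hy.trans h3) hp1 hp2
  rw [Complex.re_add_im] at l1 l2 l3
  rw [ker_symm N (x + y * Complex.I) p]
  have e1 : X N (x + y * Complex.I) * ker N p (x + y * Complex.I) -
      XL N (x + y * Complex.I) * k0 N p (x + y * Complex.I) =
      (X N (x + y * Complex.I) - XL N (x + y * Complex.I)) * ker N p (x + y * Complex.I) +
      XL N (x + y * Complex.I) * (ker N p (x + y * Complex.I) - k0 N p (x + y * Complex.I)) := by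
    ring
  rw [e1]
  refine (norm_add_le _ _).trans ?_
  rw [norm_mul, norm_mul]
  have m1 := mul_le_mul k3 l1 (norm_nonneg _) (Real.exp_pos _).le
  have m2 := mul_le_mul k2 l3 (norm_nonneg _) (Real.exp_pos _).le
  rw [← Real.exp_add] at m1 m2
  have e2 : N * (f.re + (j - 1) * (2 * bet) + ε) + N * (2 * bet + ε) =
    N * (f.re + j * (2 * bet) + 2 * ε) := by ring
  have e3 : N * (f.re + j * (2 * bet) + ε) + N * ε = N * (f.re + j * (2 * bet) + 2 * ε) := by ring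
  rw [e2] at m1
  rw [e3] at m2
  have e4 : Real.exp (N * (f.re + j * (2 * bet) + 3 * ε)) =
      Real.exp (N * ε) * Real.exp (N * (f.re + j * (2 * bet) + 2 * ε)) := by
    rw [← Real.exp_add]
    congr 1
    ring
  rw [e4]
  have m3 := mul_le_mul_of_nonneg_right h4 (Real.exp_pos (N * (f.re + j * (2 * bet) + 2 * ε))).le
  linarith

/-- asymptotics of the product -/
theorem prod_mw {ρ τ κ c C : ℝ} (hE : ED ρ τ κ c C U k0 sg) (H : PSm U x₁ τ₁ ε₁ ε₂ j X XL f Φ)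
    {K : Set ℂ} (hK : IsCompact K) (hKs : K ⊆ Rc (3 * ρ) (3 * τ)) {p : ℕ → ℂ} {p₀ : ℂ}
    (hp0 : p₀ ∈ K) (hp : ∀ N, p N ∈ K) (hlim : Tendsto p atTop (𝓝 p₀)) {V : Set ℂ} (hVU : V ⊆ U)
    (hVc : IsCompact V) :
    MW (fun N φ => XL N φ * k0 N (p N) φ) (fun w => Φ w + sg p₀ w) V := by
  have hs : ContinuousOn (fun q : ℂ × ℂ => sg q.2 q.1) (V ×ˢ K) := by
    have h1 : ContinuousOn (fun q : ℂ × ℂ => sg q.1 q.2) (Rc (3 * ρ) (3 * τ) ×ˢ U) :=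
      hE.san.continuousOn
    refine h1.comp (f := fun q : ℂ × ℂ => (q.2, q.1)) (by fun_prop) ?_
    rintro ⟨q1, q2⟩ ⟨h1, h2⟩
    exact ⟨hKs h2, hVU h1⟩
  intro e he
  filter_upwards [H.mw V hVU hVc (e / 4) (by positivity), hE.mw (e / 4) (by positivity),
    unif2 (s := fun φ q => sg q φ) hVc hK hs hp hp0 hlim (show 0 < e / 2 by positivity)] with
    N h1 h2 h3 φ hφ
  obtain ⟨k1, k2⟩ := h1 φ hφ
  obtain ⟨l1, l2⟩ := h2 (p N) (hKs (hp N)) φ (hVU hφ)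
  refine ⟨mul_ne_zero k1 l1, ?_⟩
  have k3 := (Complex.abs_re_le_norm _).trans (h3 φ hφ).le
  rw [Complex.sub_re] at k3
  have hN0 : (0 : ℝ) ≤ N := Nat.cast_nonneg N
  have k4 : |N * ((sg (p N) φ).re - (sg p₀ φ).re)| ≤ N * (e / 2) := by
    rw [abs_mul, abs_of_nonneg hN0]
    exact mul_le_mul_of_nonneg_left k3 hN0
  rw [norm_mul, Real.log_mul (norm_ne_zero_iff.2 k1) (norm_ne_zero_iff.2 l1), Complex.add_re]
  rw [abs_le] at k2 l2 k4 ⊢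
  constructor
  · linarith [k2.1, l2.1, k4.1]
  · linarith [k2.2, l2.2, k4.2]

end

/-- the conclusion of `S_HCG` -/
structure HCS (a : ℤ) (U : Set ℂ) (z₀ : ℂ) (x₂ r₁ r₂ c C₁ : ℝ) (Φ F zs : ℂ → ℂ) : Prop where
  Fd : DifferentiableOn ℂ F (Rc r₂ r₂)
  ev : ∀ ψ ∈ Rc r₂ r₂, F (-ψ) = F ψ
  dd : ∀ ψ ∈ Rc r₂ r₂, (deriv (deriv F) ψ).re ≤ -(c / 2) ∧ ‖deriv (deriv F) ψ‖ ≤ C₁
  near : ∀ ψ ∈ Rc r₂ r₂, ‖zs ψ - z₀‖ ≤ r₁ ∧ zs ψ ∈ U
  crit : ∀ ψ ∈ Rc r₂ r₂, deriv (qq a fun w => Φ w + sg ψ w) (zs ψ) = 0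
  neg : ∀ ψ ∈ Rc r₂ r₂, (deriv (deriv (qq a fun w => Φ w + sg ψ w)) (zs ψ)).re < 0
  line : ∀ ψ ∈ Rc r₂ r₂, ∀ x : ℝ, |x| ≤ x₂ → x ≠ (zs ψ).re →
    (qq a (fun w => Φ w + sg ψ w) (x + (zs ψ).im * Complex.I)).re <
      (qq a (fun w => Φ w + sg ψ w) (zs ψ)).re
  val : ∀ ψ ∈ Rc r₂ r₂, F ψ = qq a (fun w => Φ w + sg ψ w) (zs ψ)
  der : ∀ ψ ∈ Rc r₂ r₂, HasDerivAt F (deriv (fun w => sg w (zs ψ)) ψ) ψ

/-- the constants at a small vertex with `j` children -/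
structure SC (j : ℕ) (a : ℤ) (z₀ : ℂ) (x₁ x₂ y τ₁ δ m ρ τ κ c C μ ε₁ ε₂ εR τR r₁ r₂ L : ℝ)
    (U : Set ℂ) : Prop where
  sv : SV (j + 1) a z₀ x₁ x₂ y τ₁ δ m U
  ed : ED ρ τ κ c C U k0 sg
  hμ : 0 < μ ∧ μ ≤ m / 4
  hε₁ : j * ε₁ ≤ μ / 4
  hε₂ : 0 < ε₂
  hεR : 0 < εR
  near : ∀ z : ℂ, ‖z - z₀‖ ≤ r₁ → |z.im - z₀.im| ≤ δ ∧ |z.re| < x₂ ∧
    Vr (j + 1) a z₀ - μ / 2 ≤ Vr (j + 1) a z
  d1 : (j + 1) * sx x₁ + (j + 1) * ε₂ + |(a : ℝ)| * τ₁ / 2 ≤ Vr (j + 1) a z₀ - 4 * μ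
  d2 : j * (2 * bet) + 3 * εR ≤ Vr (j + 1) a z₀ - 4 * μ
  hL : ∀ ψ ∈ Rc r₂ r₂, ∀ w ∈ U, ‖sg ψ w - sg 0 w‖ ≤ L * ‖ψ‖
  hL0 : 0 < L
  hL1 : L * (2 * r₂) ≤ μ / 4
  rk1 : RK1 x₁ τR (ε₂ / 2)
  rk2 : RK2 τR εR
  hτR : 0 < τR ∧ τ₁ ≤ τR
  hr₂ : 0 < r₂ ∧ r₂ ≤ τR ∧ r₂ ≤ ρ ∧ r₂ ≤ τ

section

variable {j : ℕ} {a : ℤ} {z₀ : ℂ}
  {x₁ x₂ y τ₁ δ m ρ τ κ c C μ ε₁ ε₂ εR τR r₁ r₂ L C₁ : ℝ} {U : Set ℂ}
  {X XL : ℕ → ℂ → ℂ} {f : ℂ} {Φ F zs : ℂ → ℂ}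
  (S : SC j a z₀ x₁ x₂ y τ₁ δ m ρ τ κ c C μ ε₁ ε₂ εR τR r₁ r₂ L U)
  (H : PSm U x₁ τ₁ ε₁ ε₂ j X XL f Φ)
  (Hc : HCS a U z₀ x₂ r₁ r₂ c C₁ Φ F zs)

include S H

/-- the potential is close to the model -/
theorem cl_child {ψ : ℂ} (hψ : ψ ∈ Rc r₂ r₂) :
    ∀ w ∈ U, ‖(Φ w + sg ψ w) - f - ((j + 1 : ℕ) : ℂ) * sg 0 w‖ ≤ μ / 2 := by
  intro w hw
  have e1 : (Φ w + sg ψ w) - f - ((j + 1 : ℕ) : ℂ) * sg 0 w =
      (Φ w - f - j * sg 0 w) + (sg ψ w - sg 0 w) := by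
    push_cast
    ring
  rw [e1]
  refine (norm_add_le _ _).trans ?_
  have h1 := H.cl w hw
  have h2 := S.hL ψ hψ w hw
  have h3 : L * ‖ψ‖ ≤ L * (2 * r₂) := mul_le_mul_of_nonneg_left (Rc_norm hψ).le S.hL0.le
  linarith [S.hε₁, S.hL1]

include Hc

/-- lower bound of the critical value -/
theorem F_low (hS : S_SF) {ψ : ℂ} (hψ : ψ ∈ Rc r₂ r₂) :
    f.re + Vr (j + 1) a z₀ - μ ≤ (F ψ).re := by
  obtain ⟨h1, h2⟩ := Hc.near ψ hψ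
  rw [Hc.val ψ hψ]
  exact val_low hS S.sv (cl_child S H hψ) le_rfl h2 (S.near _ h1).2.2

theorem F_low' (hS : S_SF) {ψ : ℂ} (hψ : ψ ∈ Rc r₂ r₂) (hbet : 0 < bet) :
    3 * μ ≤ (F ψ).re := by
  have h1 := F_low S H Hc hS hψ
  have h2 := H.pos
  have h3 := S.d2
  have h4 := S.hεR
  have h5 : 0 ≤ (j : ℝ) * (2 * bet) := by positivity
  linarith

/-- limits along sequences -/
theorem child_seq (hO : S_OUT) (hS : S_SF) {K : Set ℂ} (hK : IsCompact K)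
    (hK2 : K ⊆ Rc r₂ r₂) {p : ℕ → ℂ} {p₀ : ℂ}
    (hp0 : p₀ ∈ K) (hp : ∀ N, p N ∈ K) (hlim : Tendsto p atTop (𝓝 p₀)) :
    Tendsto (fun N => Real.log ‖stp a X N (p N)‖ / N) atTop (𝓝 (F p₀).re) := by
  have hπ := Real.pi_gt_three
  have hμ := S.hμ.1
  have hK3 : K ⊆ Rc (3 * ρ) (3 * τ) := hK2.trans (Rc_le (by linarith [S.hr₂.2.2.1, S.ed.hρ.1])
    (by linarith [S.hr₂.2.2.2, S.ed.hτ.1]))
  have hKr : ∀ p ∈ K, |p.re| ≤ π ∧ |p.im| ≤ τR := by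
    intro p hp
    have h1 := (hK2 hp).1
    have h2 := (hK2 hp).2
    have h3 := S.ed.hρ.2
    exact ⟨by linarith [S.hr₂.2.2.1], by linarith [S.hr₂.2.1]⟩
  obtain ⟨q1, q2⟩ := Hc.near p₀ (hK2 hp0)
  obtain ⟨q3, q4, q5⟩ := S.near _ q1
  rw [Hc.val p₀ (hK2 hp0)]
  have hGd : DifferentiableOn ℂ (fun w => Φ w + sg p₀ w) U := by
    have h1 : DifferentiableOn ℂ (fun w : ℂ => (p₀, w)) U :=
      ((differentiable_const p₀).prodMk differentiable_id).differentiableOn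
    have h2 : DifferentiableOn ℂ ((fun x : ℂ × ℂ => sg x.1 x.2) ∘ fun w : ℂ => (p₀, w)) U :=
      DifferentiableOn.comp S.ed.san h1 (fun w hw => Set.mk_mem_prod (hK3 hp0) hw)
    have h3 : ((fun x : ℂ × ℂ => sg x.1 x.2) ∘ fun w : ℂ => (p₀, w)) = fun w => sg p₀ w := rfl
    rw [h3] at h2
    exact H.Fan.add h2
  have h1 := out_lim hO hS S.sv (G := fun w => Φ w + sg p₀ w) (f := f) (e := μ / 2) (μ := μ) hGd
    (cl_child S H (hK2 hp0)) le_rfl S.hμ.2 (z := zs p₀) q3 q4 q2 q5 (Hc.crit p₀ (hK2 hp0))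
    (Hc.neg p₀ (hK2 hp0)) (Hc.line p₀ (hK2 hp0))
    (P := fun N φ => X N φ * ker N φ (p N)) (PL := fun N φ => XL N φ * k0 N (p N) φ)
    (B := f.re + j * (sx x₁ + ε₂) + (sx x₁ + ε₂ / 2)) (D := f.re + j * (2 * bet) + 3 * εR)
    (fun N => (H.an N).mul (ker_diff N (p N))) (fun N => (H.anL N).mul (k0_diff N (p N)))
    (fun V hV hVc => prod_mw S.ed H hK hK3 hp0 hp hlim hV hVc) (by
      filter_upwards [prod_rb H S.rk1 S.hτR.2] with N h x y hx hx' hy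
      exact h (p N) (hKr _ (hp N)).1 (hKr _ (hp N)).2 x y hx hx' hy) (by
      have h1 := S.d1
      have h2 := S.hε₂
      linarith) (by
      filter_upwards [prod_diff H S.hεR S.rk2 S.hτR.1] with N h x y hx hy
      exact h (p N) (hKr _ (hp N)).1 (hKr _ (hp N)).2 x y hx hy) (by
      have h1 := S.d2
      linarith)
  refine h1.congr fun N => ?_
  rw [stp_eq]

/-- asymptotics -/
theorem child_mw (hO : S_OUT) (hS : S_SF) (hbet : 0 < bet) {a₀ b₀ : ℝ} (ha2 : a₀ < r₂)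
    (hb2 : b₀ < r₂) : MW (stp a X) F (Rc a₀ b₀) := by
  have hμ := S.hμ.1
  have hK2 : Kc a₀ b₀ ⊆ Rc r₂ r₂ := by
    intro w hw
    rw [Kc_mem] at hw
    exact ⟨by linarith [hw.1], by linarith [hw.2]⟩
  have hunif := Pool.Agent.W583.HT.seq ℂ (Kc a₀ b₀) (Kc_compact _ _)
    (fun N ψ' => Real.log ‖stp a X N ψ'‖ / N) (fun ψ' => (F ψ').re)
    (Complex.continuous_re.comp_continuousOn (Hc.Fd.continuousOn.mono hK2))
    (fun p p₀ hp0 hp hlim => child_seq S H Hc hO hS (Kc_compact _ _) hK2 hp0 hp hlim)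
  intro e he
  filter_upwards [hunif (min e μ) (lt_min he hμ), eventually_gt_atTop 0] with
    N h1 h2 ψ hψ
  have hN' : (0 : ℝ) < N := by exact_mod_cast h2
  have hψ' : ψ ∈ Kc a₀ b₀ := by
    rw [Kc_mem]
    exact ⟨hψ.1.le, hψ.2.le⟩
  have k1 := h1 ψ hψ'
  refine ⟨?_, ?_⟩
  · intro h0
    rw [h0, norm_zero, Real.log_zero, zero_div, zero_sub, abs_neg] at k1
    have k2 := F_low' S H Hc hS (hK2 hψ') hbet
    have k3 := (le_abs_self _).trans k1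
    have k4 := min_le_right e μ
    linarith
  · have k2 : |Real.log ‖stp a X N ψ‖ / N - (F ψ).re| ≤ e := k1.trans (min_le_left _ _)
    have k3 : Real.log ‖stp a X N ψ‖ - N * (F ψ).re =
        N * (Real.log ‖stp a X N ψ‖ / N - (F ψ).re) := by
      field_simp
    rw [k3, abs_mul, abs_of_pos hN', mul_comm e]
    exact mul_le_mul_of_nonneg_left k2 hN'.le

/-- bound away from `0` -/
theorem child_gl (hB : S_OUTB) (hS : S_SF) {a₀ κ' κ₁ : ℝ}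
    (hfar : ∀ᶠ N : ℕ in atTop, ∀ x y : ℝ, a₀ ≤ |x| → |x| ≤ π → |y| ≤ 1 / N → ∀ p ∈ U,
      ‖k0 N (x + y * Complex.I) p‖ ≤ Real.exp (N * ((sg 0 p).re - κ')))
    (hκ₁ : κ₁ < κ') (hκ₂ : κ₁ < μ) :
    ∀ᶠ N : ℕ in atTop, ∀ x y : ℝ, a₀ ≤ |x| → |x| ≤ π → |y| ≤ 1 / N →
      ‖stp a X N (x + y * Complex.I)‖ ≤ Real.exp (N * ((F 0).re - κ₁)) := by
  have hμ := S.hμ.1
  obtain ⟨ε, hε⟩ : ∃ ε : ℝ, ε = min ((κ' - κ₁) / 2) (μ - κ₁) := ⟨_, rfl⟩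
  have hε0 : 0 < ε := by rw [hε]; exact lt_min (by linarith) (by linarith)
  have hε1 : ε ≤ (κ' - κ₁) / 2 := by rw [hε]; exact min_le_left _ _
  have hε2 : ε ≤ μ - κ₁ := by rw [hε]; exact min_le_right _ _
  have h0 : (0 : ℂ) ∈ Rc r₂ r₂ := Rc_zero S.hr₂.1 S.hr₂.1
  obtain ⟨q1, q2⟩ := Hc.near 0 h0
  obtain ⟨q3, q4, q5⟩ := S.near _ q1
  obtain ⟨p1, p2, p3⟩ := S.sv.pth _ q3
  have hlow := F_low S H Hc hS h0
  have hval := Hc.val 0 h0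
  have hpath := path_lt hS S.sv (cl_child S H h0) le_rfl S.hμ.2 q3 q2 q5 (Hc.line 0 h0)
  have hpath' : ∀ w ∈ Pth x₁ x₂ y (zs 0).im τ₁,
      (qq a (fun w => Φ w + sg 0 w) w).re ≤ (F 0).re := by
    intro w hw
    rw [hval]
    rcases eq_or_ne w (zs 0) with h | h
    · rw [h]
    · exact (hpath w hw h).le
  have hx₂ : 0 < x₂ := lt_of_le_of_lt (abs_nonneg _) S.sv.ord.1
  have hcomp : IsCompact (Pth x₁ x₂ y (zs 0).im τ₁) := by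
    have e : Pth x₁ x₂ y (zs 0).im τ₁ = Pt1 x₁ x₂ y (zs 0).im τ₁ ∪
        (Set.Icc (-x₂) x₂ ×ℂ Set.Icc (zs 0).im (zs 0).im) := by
      ext w
      constructor
      · rintro (h | h | h | ⟨h1, h2⟩)
        · exact Or.inl (Or.inl h)
        · exact Or.inl (Or.inr (Or.inl h))
        · exact Or.inl (Or.inr (Or.inr h))
        · right
          rw [Complex.mem_reProdIm, Set.mem_Icc, Set.mem_Icc, ← abs_le]
          exact ⟨h1, h2.ge, h2.le⟩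
      · rintro ((h | h | h) | h)
        · exact Or.inl h
        · exact Or.inr (Or.inl h)
        · exact Or.inr (Or.inr (Or.inl h))
        · rw [Complex.mem_reProdIm, Set.mem_Icc, Set.mem_Icc, ← abs_le] at h
          exact Or.inr (Or.inr (Or.inr ⟨h.1, le_antisymm h.2.2 h.2.1⟩))
    rw [e]
    exact (Pt1_compact S.sv.ord.2.1 p1 S.sv.hτ.1 (lt_of_lt_of_le S.sv.hτ.1 S.sv.hτ.2)).union
      (isCompact_Icc.reProdIm isCompact_Icc)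
  filter_upwards [hB a x₁ x₂ y (zs 0).im τ₁ hx₂ S.sv.ord.2.1 S.sv.ord.2.2 S.sv.hτ.1 S.sv.hτ.2 p1 ε
    hε0, hfar, H.mw _ p2 hcomp ε hε0, prod_rb H S.rk1 S.hτR.2,
    prod_diff H S.hεR S.rk2 S.hτR.1, inv_ev' S.hτR.1] with N g1 g2 g3 g4 g5 g6 x' y' hx hx' hy
  obtain ⟨p, hp⟩ : ∃ p : ℂ, p = (x' : ℂ) + y' * Complex.I := ⟨_, rfl⟩
  have hpr : |p.re| ≤ π := by rw [hp]; simpa using hx'
  have hpi : |p.im| ≤ τR := by rw [hp]; simpa using hy.trans g6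
  have hN : (0 : ℝ) ≤ N := Nat.cast_nonneg N
  have k2 := g2 x' y' hx hx' hy
  rw [← hp] at k2 ⊢
  rw [stp_eq]
  have e1 : (F 0).re - κ₁ = ((F 0).re - κ₁ - ε) + ε := by ring
  rw [e1]
  refine g1 (fun φ => X N φ * ker N φ p) (fun φ => XL N φ * k0 N p φ) _
    ((H.an N).mul (ker_diff N p)) ((H.anL N).mul (k0_diff N p)) ?_ ?_ ?_
  · intro x y hx hx' hy
    refine (g4 p hpr hpi x y hx hx' hy).trans (Real.exp_le_exp.2 ?_)
    apply mul_le_mul_of_nonneg_left _ hN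
    have h1 := S.d1
    have h2 := S.hε₂
    linarith
  · intro w hw
    obtain ⟨a1, a2⟩ := g3 w hw
    have a3 := k2 w (p2 hw)
    have a4 : ‖XL N w‖ ≤ Real.exp (N * ((Φ w).re + ε)) := by
      rw [← Real.log_le_iff_le_exp (norm_pos_iff.2 a1)]
      linarith [(abs_le.1 a2).2]
    have a5 := hpath' w hw
    rw [norm_mul, norm_mul, Complex.norm_exp]
    have a6 : (N * (Complex.I * a * w ^ 2 / (4 * π) + Complex.I * w) : ℂ).re =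
        N * (Complex.I * a * w ^ 2 / (4 * π) + Complex.I * w).re := by
      rw [← Complex.ofReal_natCast, Complex.re_ofReal_mul]
    rw [a6]
    refine (mul_le_mul_of_nonneg_left (mul_le_mul a4 a3 (norm_nonneg _) (Real.exp_pos _).le)
      (Real.exp_pos _).le).trans ?_
    rw [← Real.exp_add, ← Real.exp_add]
    apply Real.exp_le_exp.2
    have a7 : (qq a (fun w => Φ w + sg 0 w) w).re =
        (Complex.I * a * w ^ 2 / (4 * π) + Complex.I * w).re + ((Φ w).re + (sg 0 w).re) := by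
      unfold qq
      simp only [Complex.add_re]
    rw [a7] at a5
    have a8 : (Complex.I * a * w ^ 2 / (4 * π) + Complex.I * w).re + ((Φ w).re + ε +
        ((sg 0 w).re - κ')) ≤ (F 0).re - κ₁ - ε := by linarith
    have a9 := mul_le_mul_of_nonneg_left a8 hN
    linarith
  · intro x y hx hy
    refine (g5 p hpr hpi x y hx hy).trans (Real.exp_le_exp.2 ?_)
    apply mul_le_mul_of_nonneg_left _ hN
    have h1 := S.d2
    linarith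

/-- the function of a small vertex -/
theorem child_gv (hO : S_OUT) (hB : S_OUTB) (hS : S_SF) (hbet : 0 < bet) {a₀ b₀ κ' κ₁ : ℝ}
    (hb : 0 < b₀) (hba : b₀ ≤ a₀) (ha2 : 3 * a₀ ≤ r₂)
    (hfar : ∀ᶠ N : ℕ in atTop, ∀ x y : ℝ, a₀ ≤ |x| → |x| ≤ π → |y| ≤ 1 / N → ∀ p ∈ U,
      ‖k0 N (x + y * Complex.I) p‖ ≤ Real.exp (N * ((sg 0 p).re - κ')))
    (hκ₁ : κ₁ / 2 < κ') (hκ₂ : κ₁ / 2 < μ) :
    GoodV a₀ b₀ κ₁ (c / 2) C₁ 1 (stp a X) F := by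
  have ha : 0 < a₀ := lt_of_lt_of_le hb hba
  have h0 : (0 : ℂ) ∈ Rc r₂ r₂ := Rc_zero S.hr₂.1 S.hr₂.1
  obtain ⟨st1, st2⟩ := Pool.Agent.W398.HT.t_STPE a X H.an
  have hsub : Rc (3 * a₀) (3 * b₀) ⊆ Rc r₂ r₂ := Rc_le ha2 (by linarith)
  have hsub2 : Rc (2 * a₀) (2 * b₀) ⊆ Rc r₂ r₂ := Rc_le (by linarith) (by linarith)
  have h3 := F_low' S H Hc hS h0 hbet
  have hμ := S.hμ.1
  refine ⟨st1, st2, by linarith, ⟨Hc.Fd.mono hsub, fun w hw => Hc.ev w (hsub hw),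
    fun w hw => ?_, fun w hw => ?_⟩, ?_, ?_⟩
  · have := (Hc.dd w (hsub2 hw)).1
    push_cast
    linarith
  · have := (Hc.dd w (hsub2 hw)).2
    push_cast
    linarith
  · exact child_mw S H Hc hO hS hbet (by linarith) (by linarith)
  · filter_upwards [child_gl S H Hc hB hS hfar hκ₁ hκ₂] with N h1 x y hx hx' hy
    rw [Nat.cast_one, one_mul]
    exact h1 x y hx hx' hy

end

end Pool.Agent.N424.VS
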