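import Pool.Agent.N424.VS.SmB
import Pool.Agent.TH558.J365

/-!
# Project VS, job H: the step at a small vertex
-/

set_option autoImplicit false

namespace Pool.Agent.N424.VS

open Filter Finset Topology Metric
open Pool.Agent.N561
open Pool.Agent.W711.HT hiding XX
open Pool.Agent.TH563.V
open scoped Real

/-- the term of a vertex -/
noncomputable def gt (a : ℤ) (w : ℂ) : ℂ := Complex.I * a * w ^ 2 / (4 * π) + Complex.I * w

theorem gt_der (a : ℤ) (w : ℂ) :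
    HasDerivAt (gt a) (Complex.I * a * w / (2 * π) + Complex.I) w := by
  have hπ : (π : ℂ) ≠ 0 := by exact_mod_cast Real.pi_ne_zero
  have h1 : HasDerivAt (fun w : ℂ => Complex.I * a * w ^ 2 / (4 * π))
      (Complex.I * a * (2 * w) / (4 * π)) w := by
    have h := ((hasDerivAt_pow 2 w).const_mul (Complex.I * a)).div_const (4 * π : ℂ)
    simpa using h
  have h2 : HasDerivAt (fun w : ℂ => Complex.I * w) Complex.I w := by
    simpa using (hasDerivAt_id w).const_mul Complex.I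
  refine (h1.add h2).congr_deriv ?_
  field_simp
  ring

theorem qq_gt (a : ℤ) (G : ℂ → ℂ) : qq a G = fun w => gt a w + G w := rfl

/-- the derivative of the potential of a small vertex -/
theorem pot_der (hS : S_SF) (n : ℕ) (a : ℤ) {w : ℂ} (hw : w ∈ GG) :
    HasDerivAt (fun w => gt a w + n * sg 0 w)
      (Complex.I * a * w / (2 * π) + Complex.I + n * (-(1 / π) * gdi (w / 2))) w := by
  have h1 : HasDerivAt (fun w => gt a w + n * sf w)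
      (Complex.I * a * w / (2 * π) + Complex.I + n * (-(1 / π) * gdi (w / 2))) w :=
    (gt_der a w).add ((sf_der hS (GG_re hw)).const_mul _)
  refine h1.congr_of_eventuallyEq ?_
  filter_upwards [GG_open.mem_nhds hw] with v hv
  rw [sg_eq hS hv]

theorem pot_crit (hS : S_SF) {n : ℕ} {a : ℤ} {z₀ : ℂ} {x₁ x₂ y₁ : ℝ}
    (h : PathD n a z₀ x₁ x₂ y₁) : deriv (fun w => gt a w + n * sg 0 w) z₀ = 0 := by
  rw [(pot_der hS n a h.zG).deriv, ← h.crit]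
  ring

theorem pot_neg (hS : S_SF) {n : ℕ} (hn : 1 ≤ n) {a : ℤ} {z₀ : ℂ} {x₁ x₂ y₁ : ℝ}
    (h : PathD n a z₀ x₁ x₂ y₁) : (deriv (deriv fun w => gt a w + n * sg 0 w) z₀).re < 0 := by
  have hπ := Real.pi_pos
  have hπ3 := Real.pi_gt_three
  have h1 : deriv (fun w => gt a w + n * sg 0 w) =ᶠ[𝓝 z₀] fun w =>
      Complex.I * a * w / (2 * π) + Complex.I + n * (-(1 / π) * gdi (w / 2)) := by
    filter_upwards [GG_open.mem_nhds h.zG] with v hv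
    exact (pot_der hS n a hv).deriv
  have hzr : |(z₀ / 2).re| < π / 2 := by
    have e : (z₀ / 2).re = z₀.re / 2 := by
      rw [show z₀ / 2 = ((1 / 2 : ℝ) : ℂ) * z₀ by push_cast; ring, Complex.re_ofReal_mul]
      ring
    rw [e, abs_div, abs_two]
    linarith [GG_re h.zG]
  have h2 : HasDerivAt gdi (1 / Complex.cos (z₀ / 2)) (z₀ / 2) := (hS.1 _ hzr).1
  have h3 : HasDerivAt (fun w => gdi (w / 2)) (1 / Complex.cos (z₀ / 2) * (1 / 2)) z₀ :=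
    HasDerivAt.comp (h₂ := gdi) (h := fun w => w / 2) z₀ h2 ((hasDerivAt_id z₀).div_const 2)
  have h4 : HasDerivAt (fun w : ℂ => Complex.I * a * w / (2 * π) + Complex.I)
      (Complex.I * a / (2 * π)) z₀ := by
    have := (((hasDerivAt_id z₀).const_mul (Complex.I * a)).div_const (2 * π : ℂ)).add_const
      Complex.I
    simpa using this
  have h5 : HasDerivAt (fun w : ℂ => Complex.I * a * w / (2 * π) + Complex.I +
      n * (-(1 / π) * gdi (w / 2))) (Complex.I * a / (2 * π) +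
        n * (-(1 / π) * (1 / Complex.cos (z₀ / 2) * (1 / 2)))) z₀ :=
    h4.add ((h3.const_mul (-(1 / π : ℂ))).const_mul (n : ℂ))
  rw [h1.deriv_eq, h5.deriv]
  have e1 : (Complex.I * a / (2 * π) : ℂ).re = 0 := by
    have : (Complex.I * a / (2 * π) : ℂ) = ((a / (2 * π) : ℝ) : ℂ) * Complex.I := by
      push_cast
      ring
    rw [this, Complex.re_ofReal_mul, Complex.I_re, mul_zero]
  have e2 : (n * (-(1 / π) * (1 / Complex.cos (z₀ / 2) * (1 / 2))) : ℂ) =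
      ((-(n / (2 * π)) : ℝ) : ℂ) * (Complex.cos (z₀ / 2))⁻¹ := by
    push_cast
    ring
  have hc : (Complex.cos (z₀ / 2)).re = Real.cos (z₀ / 2).re * Real.cosh (z₀ / 2).im := by
    conv_lhs => rw [← Complex.re_add_im (z₀ / 2)]
    rw [Complex.cos_add_mul_I, Complex.sub_re]
    rw [← Complex.ofReal_cos, ← Complex.ofReal_cosh, ← Complex.ofReal_sin, ← Complex.ofReal_sinh,
      ← Complex.ofReal_mul, Complex.ofReal_re, mul_assoc,
      Complex.re_ofReal_mul, Complex.re_ofReal_mul, Complex.I_re]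
    ring
  have hc0 : 0 < (Complex.cos (z₀ / 2)).re := by
    rw [hc]
    have := abs_lt.1 hzr
    exact mul_pos (Real.cos_pos_of_mem_Ioo ⟨this.1, this.2⟩) (Real.cosh_pos _)
  rw [Complex.add_re, e1, e2, Complex.re_ofReal_mul, Complex.inv_re, zero_add]
  have hns : 0 < Complex.normSq (Complex.cos (z₀ / 2)) := by
    refine Complex.normSq_pos.2 ?_
    intro h0
    rw [h0, Complex.zero_re] at hc0
    exact lt_irrefl _ hc0
  have hn0 : (0 : ℝ) < n := by exact_mod_cast hn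
  have : 0 < (n / (2 * π)) * ((Complex.cos (z₀ / 2)).re / Complex.normSq (Complex.cos (z₀ / 2))) := by
    positivity
  linarith

theorem pot_val (hS : S_SF) (n : ℕ) (a : ℤ) {w : ℂ} (hw : w ∈ GG) :
    (gt a w + n * sg 0 w).re = Vr n a w := by
  rw [sg_eq hS hw]
  rfl

theorem pot_line (hS : S_SF) {n : ℕ} {a : ℤ} {z₀ : ℂ} {x₁ x₂ y₁ : ℝ}
    (h : PathD n a z₀ x₁ x₂ y₁) : ∀ x : ℝ, |x| ≤ x₂ → x ≠ z₀.re →
      (gt a (x + z₀.im * Complex.I) + n * sg 0 (x + z₀.im * Complex.I)).re <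
        (gt a z₀ + n * sg 0 z₀).re := by
  intro x hx hne
  rw [pot_val hS n a h.zG, pot_val hS n a (h.in2 x z₀.im hx h.ord.2.2.2.2 le_rfl)]
  exact h.line x hx hne

/-- job H: the step at a small vertex -/
theorem small (hE : S_EDK) (hR : S_RB) (hO : S_OUT) (hB : S_OUTB) (hS : S_SF) : S_SMALL := by
  intro n a z₀ x₁ x₂ y₁ hn hP g hg
  obtain ⟨j, rfl⟩ : ∃ j, n = j + 1 := ⟨n - 1, by omega⟩
  obtain ⟨o1, o2, o3, o4, o5⟩ := hP.ord
  have hz0 : 0 ≤ z₀.re := hP.zre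
  have hπ := Real.pi_gt_three
  have hbet := Pool.Agent.TH563.Z.J365.bet_pos
  have hj : (0 : ℝ) ≤ j := Nat.cast_nonneg j
  have hp1 := hP.p1
  have hp2 := hP.p2
  push_cast at hp1 hp2
  obtain ⟨V₀, hV₀⟩ : ∃ V₀ : ℝ, V₀ = Vr (j + 1) a z₀ := ⟨_, rfl⟩
  rw [← hV₀] at hp1 hp2
  obtain ⟨d₁, hd₁⟩ : ∃ d₁ : ℝ, d₁ = V₀ - (j + 1) * sx x₁ := ⟨_, rfl⟩
  have hd₁0 : 0 < d₁ := by rw [hd₁]; linarith
  obtain ⟨d₂, hd₂⟩ : ∃ d₂ : ℝ, d₂ = V₀ - j * (2 * bet) := ⟨_, rfl⟩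
  have hd₂0 : 0 < d₂ := by rw [hd₂]; linarith
  obtain ⟨ε₂, hε₂⟩ : ∃ ε₂ : ℝ, ε₂ = d₁ / (4 * (j + 1)) := ⟨_, rfl⟩
  have hε₂0 : 0 < ε₂ := by rw [hε₂]; positivity
  have hε₂1 : (j + 1) * ε₂ = d₁ / 4 := by rw [hε₂]; field_simp
  obtain ⟨εR, hεR⟩ : ∃ εR : ℝ, εR = d₂ / 8 := ⟨_, rfl⟩
  have hεR0 : 0 < εR := by rw [hεR]; positivity
  obtain ⟨τa, hτa, rka⟩ := hR.1 x₁ (ε₂ / 2) (by linarith) (by linarith) (by positivity)
  obtain ⟨τb, hτb, rkb⟩ := hR.2 εR hεR0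
  obtain ⟨τR, hτR⟩ : ∃ τR : ℝ, τR = min τa τb := ⟨_, rfl⟩
  have hτR0 : 0 < τR := by rw [hτR]; exact lt_min hτa hτb
  have hτRa : τR ≤ τa := by rw [hτR]; exact min_le_left _ _
  have hτRb : τR ≤ τb := by rw [hτR]; exact min_le_right _ _
  have rk1 : RK1 x₁ τR (ε₂ / 2) := by
    filter_upwards [rka] with N h x y x' y' h1 h2 h3 h4 h5
    exact (h x y x' y' h1 h2 (h3.trans hτRa) h4 (h5.trans hτRa)).2
  have rk2 : RK2 τR εR := by
    filter_upwards [rkb] with N h x y x' y' h2 h3 h4 h5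
    exact h x y x' y' h2 (h3.trans hτRb) h4 (h5.trans hτRb)
  obtain ⟨τ₁, hτ₁⟩ : ∃ τ₁ : ℝ, τ₁ = min τR (min (y₁ / 2) (d₁ / (2 * (|(a : ℝ)| + 1)))) := ⟨_, rfl⟩
  have ha0 : 0 ≤ |(a : ℝ)| := abs_nonneg _
  have hτ₁0 : 0 < τ₁ := by
    rw [hτ₁]
    exact lt_min hτR0 (lt_min (by positivity) (by positivity))
  have hτ₁R : τ₁ ≤ τR := by rw [hτ₁]; exact min_le_left _ _
  have hτ₁y : τ₁ < y₁ := by
    have : τ₁ ≤ y₁ / 2 := by rw [hτ₁]; exact (min_le_right _ _).trans (min_le_left _ _)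
    linarith
  have hτ₁d : |(a : ℝ)| * τ₁ / 2 ≤ d₁ / 4 := by
    have h1 : τ₁ ≤ d₁ / (2 * (|(a : ℝ)| + 1)) := by
      rw [hτ₁]; exact (min_le_right _ _).trans (min_le_right _ _)
    rw [le_div_iff₀ (by positivity)] at h1
    nlinarith
  obtain ⟨Q, δ, m, hQc, hQG, hδ, hm, hτδ, hseg, hpth⟩ := path_data hS hP hτ₁0 hτ₁y
  obtain ⟨U, ρ, τ, κ, c, C, hQU, hUG, hρg, hED⟩ := hE Q hQc hQG g hg
  obtain ⟨μ, hμ⟩ : ∃ μ : ℝ, μ = min (m / 4) (min (d₁ / 8) (d₂ / 8)) := ⟨_, rfl⟩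
  have hμ0 : 0 < μ := by
    rw [hμ]; exact lt_min (by positivity) (lt_min (by positivity) (by positivity))
  have hμa : μ ≤ m / 4 := by rw [hμ]; exact min_le_left _ _
  have hμb : μ ≤ d₁ / 8 := by rw [hμ]; exact (min_le_right _ _).trans (min_le_left _ _)
  have hμc : μ ≤ d₂ / 8 := by rw [hμ]; exact (min_le_right _ _).trans (min_le_right _ _)
  have hzabs : |z₀.re| < x₂ := by rw [abs_of_nonneg hz0]; exact o1
  have hSV : SV (j + 1) a z₀ x₁ x₂ (y₁ - δ) τ₁ δ m U :=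
    { hU := hED.hU, UG := hUG, ord := ⟨hzabs, o2, by linarith⟩, hτ := ⟨hτ₁0, hτδ⟩, hδ := hδ,
      hm := hm, seg := fun x hx => hQU (hseg x hx),
      pth := fun y₂ hy₂ => ⟨(hpth y₂ hy₂).1, (hpth y₂ hy₂).2.1.trans hQU, (hpth y₂ hy₂).2.2⟩ }
  have hz₀U : z₀ ∈ U := by
    have := hSV.seg z₀.re hzabs.le
    rwa [Complex.re_add_im] at this
  -- continuity of the value
  obtain ⟨r₀, hr₀, hr₀1⟩ : ∃ r₀ : ℝ, 0 < r₀ ∧ ∀ z : ℂ, ‖z - z₀‖ < r₀ →
      V₀ - μ / 2 < Vr (j + 1) a z := by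
    have h1 : ContinuousAt (Vr (j + 1) a) z₀ :=
      (Vr_cont hS (j + 1) a).continuousAt (GG_open.mem_nhds (hUG hz₀U))
    have h2 : ∀ᶠ z in 𝓝 z₀, V₀ - μ / 2 < Vr (j + 1) a z :=
      h1.eventually_const_lt (by rw [← hV₀]; linarith)
    obtain ⟨r₀, hr₀, h3⟩ := Metric.eventually_nhds_iff.1 h2
    exact ⟨r₀, hr₀, fun z hz => h3 (by rwa [dist_eq_norm])⟩
  obtain ⟨r₁, hr₁⟩ : ∃ r₁ : ℝ, r₁ = min (min g (r₀ / 2)) (min δ ((x₂ - |z₀.re|) / 2)) := ⟨_, rfl⟩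
  have hr₁0 : 0 < r₁ := by
    rw [hr₁]
    exact lt_min (lt_min hg (by positivity)) (lt_min hδ (by linarith))
  have hr₁g : r₁ ≤ g := by rw [hr₁]; exact (min_le_left _ _).trans (min_le_left _ _)
  have hr₁r : r₁ ≤ r₀ / 2 := by rw [hr₁]; exact (min_le_left _ _).trans (min_le_right _ _)
  have hr₁δ : r₁ ≤ δ := by rw [hr₁]; exact (min_le_right _ _).trans (min_le_left _ _)
  have hr₁x : r₁ ≤ (x₂ - |z₀.re|) / 2 := by
    rw [hr₁]; exact (min_le_right _ _).trans (min_le_right _ _)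
  have hnear : ∀ z : ℂ, ‖z - z₀‖ ≤ r₁ → |z.im - z₀.im| ≤ δ ∧ |z.re| < x₂ ∧
      Vr (j + 1) a z₀ - μ / 2 ≤ Vr (j + 1) a z := by
    intro z hz
    refine ⟨?_, ?_, ?_⟩
    · have := (Complex.abs_im_le_norm _).trans hz
      rw [Complex.sub_im] at this
      exact this.trans hr₁δ
    · have h1 := (Complex.abs_re_le_norm _).trans hz
      rw [Complex.sub_re] at h1
      have h2 : |z.re| ≤ |z.re - z₀.re| + |z₀.re| := by
        have := abs_add_le (z.re - z₀.re) z₀.re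
        rwa [sub_add_cancel] at this
      linarith
    · rw [← hV₀]
      exact (hr₀1 z (by linarith)).le
  -- the potential
  have hτ0 := hED.hτ.1
  have hρτ := hED.hτ.2
  have hsubR : Rc (3 * τ) (3 * τ) ⊆ Rc (3 * ρ) (3 * τ) := Rc_le (by linarith) le_rfl
  have hgd : DifferentiableOn ℂ (gt a) U := fun w _ =>
    (gt_der a w).differentiableAt.differentiableWithinAt
  have hSP : SP (3 * τ) c C U sg :=
    { hr := by positivity, hC := hED.hC, hU := hED.hU,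
      san := hED.san.mono (Set.prod_mono hsubR subset_rfl),
      sbd := fun ψ hψ => hED.sbd ψ (hsubR hψ), ev := fun ψ hψ => hED.ev ψ (hsubR hψ),
      conc1 := fun ψ hψ => hED.conc ψ (hsubR hψ) }
  have hcr0 := pot_crit hS hP
  have hng0 := pot_neg hS (by omega) hP
  have hln0 := pot_line hS hP
  push_cast at hcr0 hng0 hln0
  obtain ⟨ε₁c, r₂c, C₁, hε₁c, hr₂c, hr₂c', hC₁, hCG⟩ := hcg (3 * τ) c C U sg (gt a) j z₀ x₂
    (by positivity) hED.hc hED.hU hSP.san hSP.sbd hSP.ev hSP.conc1 hgd hzabs hSV.seg hcr0 hng0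
    hln0 r₁ hr₁0
  have hσ0 : DifferentiableOn ℂ (fun w => ((j : ℂ) + 1) * sg 0 w) U := by
    have h1 : DifferentiableOn ℂ (fun w => sg 0 w) U := fun w hw =>
      (d2 hSP (half_sub hSP (zero_half hSP)) hw).differentiableAt.differentiableWithinAt
    exact h1.const_mul _
  obtain ⟨ε₁r, hε₁r, hCR⟩ := hcr U (gt a) (fun w => ((j : ℂ) + 1) * sg 0 w) z₀ x₂ hED.hU hgd hσ0
    hzabs hSV.seg hcr0 hng0 hln0 r₁ hr₁0
  obtain ⟨L, hL⟩ : ∃ L : ℝ, L = C / (3 * τ / 4) := ⟨_, rfl⟩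
  have hL0 : 0 < L := by rw [hL]; have := hED.hC; positivity
  obtain ⟨r₂, hr₂⟩ : ∃ r₂ : ℝ, r₂ = min r₂c (min (min ρ τ) (min τR (μ / (8 * L)))) := ⟨_, rfl⟩
  have hr₂0 : 0 < r₂ := by
    rw [hr₂]
    exact lt_min hr₂c (lt_min (lt_min hED.hρ.1 hτ0) (lt_min hτR0 (by positivity)))
  have hr₂1 : r₂ ≤ r₂c := by rw [hr₂]; exact min_le_left _ _
  have hr₂2 : r₂ ≤ ρ := by
    rw [hr₂]; exact (min_le_right _ _).trans ((min_le_left _ _).trans (min_le_left _ _))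
  have hr₂3 : r₂ ≤ τ := by
    rw [hr₂]; exact (min_le_right _ _).trans ((min_le_left _ _).trans (min_le_right _ _))
  have hr₂4 : r₂ ≤ τR := by
    rw [hr₂]; exact (min_le_right _ _).trans ((min_le_right _ _).trans (min_le_left _ _))
  have hr₂5 : L * (2 * r₂) ≤ μ / 4 := by
    have h1 : r₂ ≤ μ / (8 * L) := by
      rw [hr₂]; exact (min_le_right _ _).trans ((min_le_right _ _).trans (min_le_right _ _))
    rw [le_div_iff₀ (by positivity)] at h1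
    linarith
  have hlip : ∀ ψ ∈ Rc r₂ r₂, ∀ w ∈ U, ‖sg ψ w - sg 0 w‖ ≤ L * ‖ψ‖ := by
    intro ψ hψ w hw
    rw [hL]
    exact lip1 hSP (Rc_le (by linarith) (by linarith) hψ) hw
  obtain ⟨ε₁, hε₁⟩ : ∃ ε₁ : ℝ, ε₁ = min (min ε₁c ε₁r) (μ / 4) / (j + 1) := ⟨_, rfl⟩
  have hε₁0 : 0 < ε₁ := by
    rw [hε₁]
    have : 0 < min (min ε₁c ε₁r) (μ / 4) := lt_min (lt_min hε₁c hε₁r) (by positivity)
    positivity
  have hε₁1 : (j + 1) * ε₁ = min (min ε₁c ε₁r) (μ / 4) := by rw [hε₁]; field_simp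
  have hε₁2 : (j + 1) * ε₁ ≤ ε₁c := by
    rw [hε₁1]; exact (min_le_left _ _).trans (min_le_left _ _)
  have hε₁3 : (j + 1) * ε₁ ≤ ε₁r := by
    rw [hε₁1]; exact (min_le_left _ _).trans (min_le_right _ _)
  have hε₁4 : (j + 1) * ε₁ ≤ μ / 4 := by rw [hε₁1]; exact min_le_right _ _
  have hSC : SC j a z₀ x₁ x₂ (y₁ - δ) τ₁ δ m ρ τ κ c C μ ε₁ ε₂ εR τR r₁ r₂ L U :=
    { sv := hSV, ed := hED, hμ := ⟨hμ0, hμa⟩, hε₁ := by linarith, hε₂ := hε₂0, hεR := hεR0,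
      near := hnear, d1 := by rw [← hV₀]; linarith, d2 := by rw [← hV₀]; linarith,
      hL := hlip, hL0 := hL0, hL1 := hr₂5, rk1 := rk1, rk2 := rk2, hτR := ⟨hτR0, hτ₁R⟩,
      hr₂ := ⟨hr₂0, hr₂4, hr₂2, hr₂3⟩ }
  refine ⟨U, τ₁, ε₁, ε₂, ρ, τ, κ, c, C, hτ₁0, hε₁0, hε₂0, hUG, hz₀U, hED, ?_, ?_, ?_⟩
  · filter_upwards [rk1, inv_ev' hτR0] with N h1 h2 x y x' y' g1 g2 g3 g4 g5
    exact h1 x y x' y' g1 g2 (g3.trans hτ₁R) g4 (g5.trans h2)
  · refine ⟨r₂, c / 2, C₁, hr₂0, hr₂2, hr₂3, by have := hED.hc; positivity, hC₁, ?_⟩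
    intro a₀ b₀ hb₀ hba ha₀
    have ha₀0 : 0 < a₀ := lt_of_lt_of_le hb₀ hba
    obtain ⟨κ', hκ'⟩ : ∃ κ' : ℝ, κ' = min κ (c / 4 * a₀ ^ 2) := ⟨_, rfl⟩
    have hc := hED.hc
    have hκ'0 : 0 < κ' := by rw [hκ']; exact lt_min hED.hκ.1 (by positivity)
    have hκ'1 : κ' ≤ κ := by rw [hκ']; exact min_le_left _ _
    have hκ'2 : κ' < c / 2 * a₀ ^ 2 := by
      have h1 : κ' ≤ c / 4 * a₀ ^ 2 := by rw [hκ']; exact min_le_right _ _
      have h2 : 0 < c * a₀ ^ 2 := by positivity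
      linarith
    have hres := ed_restrict hED (ρ' := a₀) (τ' := b₀) (κ' := κ') ha₀0 (by linarith) hb₀
      (by linarith) hba hκ'0 hκ'1 hκ'2
    refine ⟨min κ' μ, lt_min hκ'0 hμ0, ?_⟩
    intro X XL f Φ H
    rw [Nat.add_sub_cancel] at H
    obtain ⟨F, zs, c1, c2, c3, c4, c5⟩ := hCG f Φ H.Fan (fun φ hφ => (H.cl φ hφ).trans
      (by linarith))
    have hm2 : Rc r₂ r₂ ⊆ Rc r₂c r₂c := Rc_le hr₂1 hr₂1
    have hHC : HCS a U z₀ x₂ r₁ r₂ c C₁ Φ F zs :=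
      { Fd := c1.mono hm2
        ev := fun ψ hψ => c3 ψ (hm2 hψ)
        dd := fun ψ hψ => c4 ψ (hm2 hψ)
        near := fun ψ hψ => ⟨(c5 ψ (hm2 hψ)).1, (c5 ψ (hm2 hψ)).2.1⟩
        crit := fun ψ hψ => (c5 ψ (hm2 hψ)).2.2.1
        neg := fun ψ hψ => (c5 ψ (hm2 hψ)).2.2.2.1
        line := fun ψ hψ x hx hne => ((c5 ψ (hm2 hψ)).2.2.2.2.1 x hx).2 hne
        val := fun ψ hψ => (c5 ψ (hm2 hψ)).2.2.2.2.2.1
        der := fun ψ hψ => (c5 ψ (hm2 hψ)).2.2.2.2.2.2 }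
    have hmin1 := min_le_left κ' μ
    have hmin2 := min_le_right κ' μ
    refine ⟨F, zs, child_gv hSC H hHC hO hB hS hbet hb₀ hba ha₀ hres.far (by linarith)
      (by linarith), ?_⟩
    intro ψ hψ
    have hψ2 : ψ ∈ Rc r₂ r₂ := Rc_le ha₀ (by linarith) hψ
    have hψ3 : ψ ∈ Rc (3 * τ) (3 * τ) := Rc_le (by linarith) (by linarith) hψ2
    obtain ⟨n1, n2⟩ := hHC.near ψ hψ2
    refine ⟨n1.trans hr₁g, n2, ?_, ?_, hHC.der ψ hψ2⟩
    · have h1 := hHC.crit ψ hψ2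
      rw [qq_gt] at h1
      have h2 : HasDerivAt (fun w => gt a w + (Φ w + sg ψ w)) _ (zs ψ) :=
        (gt_der a (zs ψ)).add ((H.Fan.differentiableAt (hED.hU.mem_nhds n2)).hasDerivAt.add
          (d2 hSP hψ3 n2))
      rw [h2.deriv] at h1
      rw [(d2 hSP hψ3 n2).deriv, ← h1]
      ring
    · rw [hHC.val ψ hψ2]
      unfold qq
      ring
  · intro X XL f Φ H
    have hcl : ∀ w ∈ U, ‖Φ w - f - ((j + 1 : ℕ) : ℂ) * sg 0 w‖ ≤ μ / 2 := by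
      intro w hw
      have := H.cl w hw
      push_cast at this ⊢
      linarith
    obtain ⟨z, z1, z2, z3, z4, z5⟩ := hCR f Φ H.Fan (fun φ hφ => by
      have := H.cl φ hφ
      push_cast at this
      linarith)
    obtain ⟨q3, q4, q5⟩ := hnear z z1
    refine ⟨z, z1.trans hr₁g, z2, ?_, ?_⟩
    · have h2 : HasDerivAt (fun w => gt a w + Φ w) _ z :=
        (gt_der a z).add (H.Fan.differentiableAt (hED.hU.mem_nhds z2)).hasDerivAt
      rw [h2.deriv] at z3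
      exact z3
    · exact out_lim hO hS hSV (G := Φ) (f := f) (e := μ / 2) (μ := μ) H.Fan hcl le_rfl hμa q3 q4
        z2 q5 z3 z4 (fun x hx hne => (z5 x hx).2 hne) H.an H.anL H.mw H.rb (by
          rw [← hV₀]
          push_cast
          linarith) (by
          filter_upwards [H.gl εR hεR0] with N h x y hx hy
          exact (h x y hx hy).2.2) (by
          rw [← hV₀]
          push_cast
          linarith)

end Pool.Agent.N424.VS
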